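import Pool.Agent.Lib.MP_ddd032_lc.Neg

set_option autoImplicit false

/-!
The Baire space as the set of points of Cantor space with infinitely many `true`.
-/

namespace Pool.Agent.Lib.MP_ddd032_lc

open Cardinal Set Filter Topology

/-- positions -/
def qq (a : ℕ → ℕ) : ℕ → ℕ
  | 0 => a 0
  | k + 1 => qq a k + a (k + 1) + 1

theorem qq_strictMono (a : ℕ → ℕ) : StrictMono (qq a) :=
  strictMono_nat_of_lt_succ fun n => by simp only [qq]; omega

theorem continuous_qq (k : ℕ) : Continuous fun a : ℕ → ℕ => qq a k := by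
  induction k with
  | zero => exact continuous_apply 0
  | succ k ih => exact (ih.add (continuous_apply (k + 1))).add continuous_const

/-- the indicator of the set of positions -/
noncomputable def JX (a : ℕ → ℕ) : X := by
  classical exact fun n => decide (∃ k, qq a k = n)

theorem JX_true {a : ℕ → ℕ} {n : ℕ} : JX a n = true ↔ ∃ k, qq a k = n := by
  simp [JX]

theorem JX_inf (a : ℕ → ℕ) : JX a ∈ Inf := fun N =>
  ⟨qq a N, (qq_strictMono a).le_apply, JX_true.2 ⟨N, rfl⟩⟩

theorem continuous_JX : Continuous JX := by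
  refine continuous_pi fun n => ?_
  rw [continuous_bool_rng true]
  have h : (fun a => JX a n) ⁻¹' {true} = ⋃ k ∈ Finset.range (n + 1), {a | qq a k = n} := by
    ext a
    simp only [mem_preimage, mem_singleton_iff, JX_true, mem_iUnion, Finset.mem_range,
      exists_prop]
    constructor
    · rintro ⟨k, hk⟩
      refine ⟨k, ?_, hk⟩
      have := (qq_strictMono a).le_apply (x := k)
      omega
    · rintro ⟨k, -, hk⟩
      exact ⟨k, hk⟩
  rw [h]
  refine Finite.isClopen_biUnion (Finset.finite_toSet _) fun k _ => ?_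
  exact (isClopen_discrete ({n} : Set ℕ)).preimage (continuous_qq k)

theorem inf_infinite {x : X} (hx : x ∈ Inf) : (Set.ofPred fun n => x n = true).Infinite := by
  rw [Set.infinite_iff_exists_gt]
  intro N
  obtain ⟨n, hn, h⟩ := hx (N + 1)
  exact ⟨n, h, by omega⟩

/-- the inverse -/
noncomputable def JI (x : X) (k : ℕ) : ℕ :=
  if k = 0 then Nat.nth (fun n => x n = true) 0
  else Nat.nth (fun n => x n = true) k - Nat.nth (fun n => x n = true) (k - 1) - 1

theorem qq_JI {x : X} (hx : x ∈ Inf) (k : ℕ) : qq (JI x) k = Nat.nth (fun n => x n = true) k := by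
  induction k with
  | zero => simp [qq, JI]
  | succ k ih =>
    have h1 : Nat.nth (fun n => x n = true) k < Nat.nth (fun n => x n = true) (k + 1) :=
      Nat.nth_strictMono (inf_infinite hx) (Nat.lt_succ_self k)
    simp only [qq, ih, JI, if_neg (Nat.succ_ne_zero k), Nat.add_sub_cancel]
    omega

theorem JX_JI {x : X} (hx : x ∈ Inf) : JX (JI x) = x := by
  funext n
  rw [Bool.eq_iff_iff, JX_true]
  simp only [qq_JI hx]
  have h := Nat.range_nth_of_infinite (inf_infinite hx)
  exact Set.ext_iff.1 h n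

theorem JI_JX (a : ℕ → ℕ) : JI (JX a) = a := by
  have h1 : qq (JI (JX a)) = qq a := by
    refine (StrictMono.range_inj (qq_strictMono _) (qq_strictMono a)).1 ?_
    have h := JX_JI (JX_inf a)
    ext n
    have h2 := congrFun h n
    rw [Bool.eq_iff_iff, JX_true, JX_true] at h2
    exact h2
  funext k
  cases k with
  | zero => exact congrFun h1 0
  | succ k =>
    have h2 := congrFun h1 (k + 1)
    have h3 := congrFun h1 k
    simp only [qq] at h2
    omega

theorem continuous_nth (k : ℕ) :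
    Continuous fun x : Inf => Nat.nth (fun n => x.1 n = true) k := by
  apply IsLocallyConstant.continuous
  rw [IsLocallyConstant.iff_eventually_eq]
  intro x
  let m := Nat.nth (fun n => x.1 n = true) k
  have hopen : IsOpen (Subtype.val ⁻¹' cyl (pre x.1 (m + 1)) : Set Inf) :=
    (isOpen_cyl _).preimage continuous_subtype_val
  filter_upwards [hopen.mem_nhds (self_mem_cyl x.1 (m + 1))] with y hy
  have h1 : ∀ i < m + 1, y.1 i = x.1 i := pre_eq_iff.1 (mem_cyl_pre.1 hy)
  have h2 : x.1 m = true := Nat.nth_mem_of_infinite (inf_infinite x.2) k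
  have h3 : Nat.count (fun n => x.1 n = true) m = k := Nat.count_nth_of_infinite
    (inf_infinite x.2) k
  have h4 : Nat.count (fun n => y.1 n = true) m = k := by
    rw [← h3, Nat.count_eq_card_filter_range, Nat.count_eq_card_filter_range]
    congr 1
    refine Finset.filter_congr fun i hi => ?_
    rw [h1 i (by have := Finset.mem_range.1 hi; omega)]
  have h5 : y.1 m = true := by rw [h1 m (Nat.lt_succ_self m)]; exact h2
  have h6 := Nat.nth_count (p := fun n => y.1 n = true) h5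
  rw [h4] at h6
  exact h6

theorem continuous_JI : Continuous fun x : Inf => JI x.1 := by
  refine continuous_pi fun k => ?_
  unfold JI
  split_ifs with h
  · exact continuous_nth 0
  · exact ((continuous_nth k).sub (continuous_nth (k - 1))).sub continuous_const

/-- the homeomorphism -/
noncomputable def J : (ℕ → ℕ) ≃ₜ Inf where
  toFun a := ⟨JX a, JX_inf a⟩
  invFun x := JI x.1
  left_inv a := JI_JX a
  right_inv x := Subtype.ext (JX_JI x.2)
  continuous_toFun := continuous_JX.subtype_mk _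
  continuous_invFun := continuous_JI

theorem JX_injective : Function.Injective JX := fun a b h => by
  rw [← JI_JX a, h, JI_JX]

theorem inf_dense {U : Set X} (hU : IsOpen U) (hne : U.Nonempty) : ∃ a, JX a ∈ U := by
  obtain ⟨s, hs⟩ := exists_cyl_subset' hU hne
  have h := wd_inf s (fun _ => true, fun _ => true)
  exact ⟨JI (wd s (fun _ => true, fun _ => true)), hs (by rw [JX_JI h]; exact wd_mem _ _)⟩

theorem kdense_image {κ : Cardinal.{0}} {A : Set (ℕ → ℕ)} (hA : KDense κ A) :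
    KDense κ (JX '' A) := by
  intro U hU hne
  obtain ⟨a, ha⟩ := inf_dense hU hne
  have h := hA (JX ⁻¹' U) (hU.preimage continuous_JX) ⟨a, ha⟩
  rw [← h, ← image_inter_preimage, Cardinal.mk_image_eq JX_injective]

theorem kdense_preimage {κ : Cardinal.{0}} {A : Set X} (hI : A ⊆ Inf) (hA : KDense κ A) :
    KDense κ (JX ⁻¹' A) := by
  intro V hV hne
  have h1 : IsOpen (J '' V) := J.isOpenMap V hV
  obtain ⟨U, hU, hUe⟩ := isOpen_induced_iff.1 h1
  have hmem : ∀ a, JX a ∈ U ↔ a ∈ V := by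
    intro a
    have := Set.ext_iff.1 hUe (J a)
    rw [J.injective.mem_set_image] at this
    exact this
  have h2 : JX '' (JX ⁻¹' A ∩ V) = A ∩ U := by
    ext x
    constructor
    · rintro ⟨a, ⟨ha, haV⟩, rfl⟩
      exact ⟨ha, (hmem a).2 haV⟩
    · rintro ⟨hx, hxU⟩
      have h3 := JX_JI (hI hx)
      refine ⟨JI x, ⟨?_, (hmem _).1 (by rw [h3]; exact hxU)⟩, h3⟩
      show JX (JI x) ∈ A
      rw [h3]; exact hx
  obtain ⟨v, hv⟩ := hne
  rw [← hA U hU ⟨JX v, (hmem v).2 hv⟩, ← h2, Cardinal.mk_image_eq JX_injective]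

/-- restriction -/
noncomputable def preHomeo {A : Set X} (hI : A ⊆ Inf) : ↥(JX ⁻¹' A) ≃ₜ A where
  toFun a := ⟨JX a.1, a.2⟩
  invFun x := ⟨JI x.1, by show JX (JI x.1) ∈ A; rw [JX_JI (hI x.2)]; exact x.2⟩
  left_inv a := Subtype.ext (JI_JX a.1)
  right_inv x := Subtype.ext (JX_JI (hI x.2))
  continuous_toFun := (continuous_JX.comp continuous_subtype_val).subtype_mk _
  continuous_invFun := (continuous_JI.comp
    (continuous_subtype_val.subtype_mk fun x => hI x.2)).subtype_mk _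

theorem not_weak_baire_of_pr {κ : Cardinal.{0}} (h : Pr κ) : ¬ BAweak κ (ℕ → ℕ) := by
  obtain ⟨A, B, hAI, hBI, hA, hB, hn⟩ := h
  intro hw
  obtain ⟨e⟩ := hw _ _ (kdense_preimage hAI hA) (kdense_preimage hBI hB)
  exact hn ⟨((preHomeo hAI).symm.trans e).trans (preHomeo hBI)⟩

theorem exists_enum : ∃ d : ℕ → X, range d = Infᶜ ∧ DenseRange d := by
  have h1 : ∀ s : List Bool, ∃ x ∈ cyl s, x ∈ (Infᶜ : Set X) := by
    intro s
    refine ⟨app s fun _ => false, app_mem _ _, fun h => ?_⟩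
    obtain ⟨n, hn, hx⟩ := h s.length
    rw [app_ge hn] at hx
    simp at hx
  obtain ⟨x, -, hx⟩ := h1 []
  obtain ⟨d, hd⟩ := countable_compl_inf.exists_eq_range ⟨x, hx⟩
  refine ⟨d, hd.symm, ?_⟩
  rw [DenseRange, dense_iff_inter_open]
  intro U hU hne
  obtain ⟨s, hs⟩ := exists_cyl_subset' hU hne
  obtain ⟨y, hy, hyI⟩ := h1 s
  exact ⟨y, hs hy, by rw [← hd]; exact hyI⟩

theorem exists_move {A : Set X} (hA : #A < bNum) : ∃ h : X ≃ₜ X, h '' A ⊆ Inf := by
  obtain ⟨d, hd, hdA⟩ := exists_dense_seq (lt_of_lt_of_le hA bNum_le)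
  obtain ⟨d', hd'r, hd'⟩ := exists_enum
  have he : #(∅ : Set X) < bNum := by
    rw [Cardinal.mk_eq_zero]
    exact lt_trans Cardinal.aleph0_pos aleph0_lt_bNum
  have hemp : ∀ s : List Bool, IsEmpty ↥((∅ : Set X) ∩ cyl s) := fun s =>
    ⟨fun x => x.2.1⟩
  obtain ⟨h, -, hr⟩ := exists_homeo he he (fun s t => by
    have := hemp s
    have := hemp t
    exact ⟨⟨Equiv.equivOfIsEmpty _ _, continuous_iff_continuousAt.2 fun x => isEmptyElim x,
      continuous_iff_continuousAt.2 fun x => isEmptyElim x⟩⟩)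
    d d' hd hd' (fun _ => Set.notMem_empty _) (fun _ => Set.notMem_empty _)
  refine ⟨h, ?_⟩
  rintro _ ⟨a, ha, rfl⟩
  by_contra hcon
  have h2 : h a ∈ range d' := by rw [hd'r]; exact hcon
  rw [← hr] at h2
  obtain ⟨_, ⟨n, rfl⟩, hn⟩ := h2
  exact hdA n (h.injective hn ▸ ha)

theorem kdense_homeo {κ : Cardinal.{0}} {A : Set X} (h : X ≃ₜ X) (hA : KDense κ A) :
    KDense κ (h '' A) := by
  intro U hU hne
  obtain ⟨u, hu⟩ := hne
  rw [← hA (h ⁻¹' U) (hU.preimage h.continuous) ⟨h.symm u, by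
    show h (h.symm u) ∈ U; rw [h.apply_symm_apply]; exact hu⟩, ← image_inter_preimage,
    Cardinal.mk_image_eq h.injective]

theorem weak_cantor_of_weak_baire {κ : Cardinal.{0}} (hκ : κ < bNum)
    (hw : BAweak κ (ℕ → ℕ)) : BAweak κ X := by
  intro A B hA hB
  obtain ⟨g, hg⟩ := exists_move (A := A) (by rw [kdense_univ hA]; exact hκ)
  obtain ⟨g', hg'⟩ := exists_move (A := B) (by rw [kdense_univ hB]; exact hκ)
  obtain ⟨e⟩ := hw _ _ (kdense_preimage hg (kdense_homeo g hA))
    (kdense_preimage hg' (kdense_homeo g' hB))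
  exact ⟨(g.image A).trans (((preHomeo hg).symm.trans (e.trans (preHomeo hg'))).trans
    (g'.image B).symm)⟩

theorem BA_baire_of_lt {κ : Cardinal.{0}} (hκ : κ < bNum) (hw : BAweak κ (ℕ → ℕ)) :
    BA κ (ℕ → ℕ) := by
  intro A B hA hB
  have hA' := kdense_image hA
  have hB' := kdense_image hB
  obtain ⟨d, hd, hdd⟩ := exists_enum
  have hdn : ∀ (C : Set (ℕ → ℕ)) n, d n ∉ JX '' C := by
    rintro C n ⟨a, -, ha⟩
    have : d n ∈ (Infᶜ : Set X) := by rw [← hd]; exact ⟨n, rfl⟩
    exact this (ha ▸ JX_inf a)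
  obtain ⟨h, h1, h2⟩ := exists_homeo (by rw [kdense_univ hA']; exact hκ)
    (by rw [kdense_univ hB']; exact hκ)
    (local_homeos (weak_cantor_of_weak_baire hκ hw) hA' hB') d d hdd hdd (hdn A) (hdn B)
  have h3 : ∀ x, x ∈ Inf ↔ h x ∈ Inf := by
    intro x
    rw [hd] at h2
    rw [← not_iff_not]
    constructor
    · intro hx
      have : h x ∈ h '' Infᶜ := ⟨x, hx, rfl⟩
      rw [h2] at this
      exact this
    · intro hx
      have h4 : h x ∈ (Infᶜ : Set X) := hx
      rw [← h2, h.injective.mem_set_image] at h4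
      exact h4
  let g : Inf ≃ₜ Inf := h.subtype h3
  refine ⟨(J.trans g).trans J.symm, ?_⟩
  have h5 : ∀ a, JX ((J.trans g).trans J.symm a) = h (JX a) := by
    intro a
    have : J ((J.trans g).trans J.symm a) = g (J a) := J.apply_symm_apply _
    exact congrArg Subtype.val this
  apply Subset.antisymm
  · rintro _ ⟨a, ha, rfl⟩
    have h6 : h (JX a) ∈ JX '' B := by rw [← h1]; exact ⟨_, ⟨a, ha, rfl⟩, rfl⟩
    rw [← h5, JX_injective.mem_set_image] at h6
    exact h6
  · intro b hb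
    have h6 : JX b ∈ h '' (JX '' A) := by rw [h1]; exact ⟨b, hb, rfl⟩
    obtain ⟨_, ⟨a, ha, rfl⟩, hab⟩ := h6
    refine ⟨a, ha, JX_injective ?_⟩
    rw [h5, hab]

theorem not_BA_baire {κ : Cardinal.{0}} (hb : bNum ≤ κ) (hc : κ ≤ 𝔠) : ¬ BA κ (ℕ → ℕ) := by
  intro hBA
  have hκ : ℵ₀ ≤ κ := le_trans aleph0_lt_bNum.le hb
  have h1 : κ ≤ #(X × X) := by
    rw [Cardinal.mk_prod, mk_X]
    simpa using hc
  obtain ⟨P, hP⟩ := Cardinal.le_mk_iff_exists_set.1 h1
  obtain ⟨F, hF, hunb⟩ := exists_unb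
  have hBI : Spr P ∪ cde '' F ⊆ Inf := by
    refine union_subset (spr_sub P) ?_
    rintro _ ⟨f, -, rfl⟩
    exact cde_inf f
  obtain ⟨h, hh⟩ := hBA (JX ⁻¹' Spr P) (JX ⁻¹' (Spr P ∪ cde '' F))
    (kdense_preimage (spr_sub P) (kdense_of hP Subset.rfl (mk_spr_le hκ hP)))
    (kdense_preimage hBI (kdense_of hP subset_union_left (mk_union_le' hκ (mk_spr_le hκ hP)
      (le_trans Cardinal.mk_image_le (by rw [hF]; exact hb)))))
  apply not_sep hunb
  refine Sep.of_countable (ι := List Bool)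
    (H := fun s => range fun q => JX (h (JI (wd s q)))) (fun s => ?_) ?_ (fun s => ?_)
  · have h2 : Continuous fun q : X × X => JI (wd s q) :=
      continuous_JI.comp ((continuous_wd s).subtype_mk fun q => wd_inf s q)
    exact (isCompact_range (continuous_JX.comp (h.continuous.comp h2))).isClosed
  · rintro _ ⟨f, hf, rfl⟩
    have h3 : JX (JI (cde f)) = cde f := JX_JI (cde_inf f)
    have h4 : JI (cde f) ∈ h '' (JX ⁻¹' Spr P) := by
      rw [hh]
      show JX (JI (cde f)) ∈ Spr P ∪ cde '' F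
      rw [h3]
      exact Or.inr ⟨f, hf, rfl⟩
    obtain ⟨a, ha, hae⟩ := h4
    obtain ⟨s, p, -, hp⟩ := mem_iUnion.1 ha
    refine mem_iUnion.2 ⟨s, p, ?_⟩
    show JX (h (JI (wd s p))) = cde f
    rw [hp, JI_JX, hae, h3]
  · rw [disjoint_left]
    rintro _ ⟨q, rfl⟩ hn
    exact hn (JX_inf _)

theorem baire {κ : Cardinal.{0}} (h : Rng κ) : BAweak κ (ℕ → ℕ) ↔ BA κ (ℕ → ℕ) := by
  refine ⟨fun hw => ?_, BAweak_of_BA⟩
  by_cases hb : κ < bNum
  · exact BA_baire_of_lt hb hw
  · push Not at hb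
    by_cases hc : κ ≤ 𝔠
    · exact absurd hw (not_weak_baire_of_pr (pr_of_rng hb hc h))
    · exact BA_of_gt (lt_of_le_of_lt (by simp) (not_le.1 hc))

theorem baire_exact (κ : Cardinal.{0}) :
    BA κ (ℕ → ℕ) ↔ BAweak κ (ℕ → ℕ) ∧ (κ < bNum ∨ 𝔠 < κ) := by
  constructor
  · intro h
    refine ⟨BAweak_of_BA h, ?_⟩
    by_contra hcon
    push Not at hcon
    exact not_BA_baire hcon.1 hcon.2 h
  · rintro ⟨hw, h | h⟩
    · exact BA_baire_of_lt h hw
    · exact BA_of_gt (lt_of_le_of_lt (by simp) h)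

end Pool.Agent.Lib.MP_ddd032_lc
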