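import Pool.Agent.Lib.MP_ddd032_lc.Thin

set_option autoImplicit false

/-!
Existence of sets with small envelopes below the uniformity of the meager ideal.
-/

namespace Pool.Agent.Lib.MP_ddd032_lc

open Cardinal Set Filter Topology

theorem bounded_of_countable {κ : Cardinal.{0}} (hcf : ℵ₀ < κ.ord.cof) {A : Set κ.ord.ToType}
    (hA : A.Countable) : ∃ γ, A ⊆ Iio γ := by
  by_contra hcon
  push Not at hcon
  have hcof : IsCofinal A := by
    intro x
    obtain ⟨y, hy, hyx⟩ := not_subset.1 (hcon x)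
    exact ⟨y, hy, not_lt.1 hyx⟩
  have h1 := Order.cof_le hcof
  rw [Ordinal.cof_toType] at h1
  have h2 : #A ≤ ℵ₀ := Cardinal.le_aleph0_iff_set_countable.2 hA
  exact absurd hcf (not_lt.2 (h1.trans h2))

/-- the countable subsets of `α` are covered by few countable subsets -/
def FewCov (α : Type) (c : Cardinal.{0}) : Prop :=
  ∃ S : Set (Set α), #S ≤ c ∧ (∀ A ∈ S, A.Countable) ∧ ∀ C : Set α, C.Countable → ∃ A ∈ S, C ⊆ A

theorem exists_avoid {B : Set X} (hB : B ⊆ GM) (hc : B.Countable) :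
    ∃ x, ∀ b ∈ B, (x, b) ∉ ⋃ n, HM n := by
  by_contra hcon
  push Not at hcon
  apply not_meagre_univ
  have h1 : (Set.univ : Set X) ⊆ ⋃ b : B, {x | (x, b.1) ∈ ⋃ n, HM n} := by
    intro x _
    obtain ⟨b, hb, h⟩ := hcon x
    exact mem_iUnion.2 ⟨⟨b, hb⟩, h⟩
  have := hc.to_subtype
  exact IsMeagre.mono h1 (isMeagre_iUnion fun b => hB b.2)

theorem exists_thn {κ : Cardinal.{0}} (hcf : ℵ₀ < κ.ord.cof) (hc : κ ≤ 𝔠)
    (S : Set (Set κ.ord.ToType)) (hS : #S < nonM) (hSc : ∀ A ∈ S, A.Countable)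
    (hcov : ∀ C : Set κ.ord.ToType, C.Countable → ∃ A ∈ S, C ⊆ A) :
    ∃ P : Set (X × X), #P = κ ∧ Thn κ P := by
  classical
  let ι := κ.ord.ToType
  let xx : Set X → X := fun B =>
    if h : ∃ x, ∀ b ∈ B, (x, b) ∉ ⋃ n, HM n then Classical.choose h else default
  have hxx : ∀ B, B ⊆ GM → B.Countable → ∀ b ∈ B, (xx B, b) ∉ ⋃ n, HM n := by
    intro B hB hBc
    have h := exists_avoid hB hBc
    have h1 : xx B = Classical.choose h := by
      simp only [xx]; rw [dif_pos h]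
    rw [h1]
    exact Classical.choose_spec h
  let im : ∀ α : ι, (∀ β : ι, β < α → X) → Set ι → Set X := fun α prev A =>
    {w | ∃ β, ∃ h : β < α, β ∈ A ∧ w = prev β h}
  let zs : ∀ α : ι, (∀ β : ι, β < α → X) → X := fun α prev =>
    if h : ∃ z ∈ GM, ∀ A ∈ S, A ⊆ Iio α → (xx (im α prev A), z) ∈ ⋃ n, HM n then
      Classical.choose h else default
  let z : ι → X := (wellFounded_lt (α := ι)).fix zs
  have hz : ∀ α, z α = zs α fun β _ => z β := by
    intro α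
    exact (wellFounded_lt (α := ι)).fix_eq _ α
  have him : ∀ α (A : Set ι), A ⊆ Iio α → im α (fun β _ => z β) A = z '' A := by
    intro α A hA
    ext w
    constructor
    · rintro ⟨β, -, hβ, rfl⟩
      exact ⟨β, hβ, rfl⟩
    · rintro ⟨β, hβ, rfl⟩
      exact ⟨β, hA hβ, hβ, rfl⟩
  have hmain : ∀ α, z α ∈ GM ∧ ∀ A ∈ S, A ⊆ Iio α → (xx (z '' A), z α) ∈ ⋃ n, HM n := by
    intro α
    have hex : ∃ w ∈ GM, ∀ A ∈ S, A ⊆ Iio α →
        (xx (im α (fun β _ => z β) A), w) ∈ ⋃ n, HM n := by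
      obtain ⟨w, hw, hw'⟩ := exists_code (S := (fun A => xx (im α (fun β _ => z β) A)) '' S)
        (lt_of_le_of_lt Cardinal.mk_image_le hS)
      exact ⟨w, hw, fun A hA _ => hw' _ ⟨A, hA, rfl⟩⟩
    have h3 : z α = Classical.choose hex := by
      rw [hz α]
      simp only [zs]
      rw [dif_pos hex]
    have h4 := Classical.choose_spec hex
    rw [← h3] at h4
    refine ⟨h4.1, fun A hA hAα => ?_⟩
    have h5 := h4.2 A hA hAα
    rwa [him α A hAα] at h5
  have hy : #ι ≤ #X := by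
    rw [Cardinal.mk_ord_toType, mk_X]; exact hc
  obtain ⟨y⟩ := hy
  let p : ι → X × X := fun α => (y α, z α)
  have hp : Function.Injective p := fun α β h => y.injective (Prod.mk.inj h).1
  refine ⟨range p, by rw [Cardinal.mk_range_eq _ hp, Cardinal.mk_ord_toType], ?_⟩
  intro C hC
  obtain ⟨A, hA, hCA⟩ := hcov (p ⁻¹' C) (hC.preimage hp)
  obtain ⟨γ, hγ⟩ := bounded_of_countable hcf (hSc A hA)
  refine ⟨fun n => {q | (xx (z '' A), q.2) ∈ HM n}, fun n => (isClosed_HM n).preimage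
    (continuous_const.prodMk continuous_snd), fun n => ?_, ?_⟩
  · rw [disjoint_left]
    rintro _ hq ⟨⟨α, rfl⟩, hαC⟩
    have h1 : z '' A ⊆ GM := by
      rintro _ ⟨β, -, rfl⟩
      exact (hmain β).1
    exact hxx _ h1 ((hSc A hA).image _) (z α) ⟨α, hCA hαC, rfl⟩ (mem_iUnion.2 ⟨n, hq⟩)
  · refine lt_of_le_of_lt ?_ (Cardinal.mk_Iio_toType_ord_lt γ)
    refine le_trans (Cardinal.mk_le_mk_of_subset (t := p '' Iio γ) ?_) Cardinal.mk_image_le
    rintro _ ⟨⟨α, rfl⟩, hα⟩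
    refine ⟨α, ?_, rfl⟩
    by_contra hle
    have hle' : γ ≤ α := not_lt.1 hle
    apply hα
    obtain ⟨n, hn⟩ := mem_iUnion.1 ((hmain α).2 A hA fun β hβ => lt_of_lt_of_le (hγ hβ) hle')
    exact mem_iUnion.2 ⟨n, hn⟩

theorem fewCov_base (α : Type) (h : #α ≤ ℵ₀) : FewCov α ℵ₀ := by
  refine ⟨{Set.univ}, ?_, ?_, fun C _ => ⟨Set.univ, rfl, subset_univ _⟩⟩
  · rw [Cardinal.mk_singleton]; exact Cardinal.one_le_aleph0
  · rintro A rfl
    have := Cardinal.mk_le_aleph0_iff.1 h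
    exact countable_univ

theorem fewCov_succ {c : Cardinal.{0}} (hc : ℵ₀ ≤ c) (h : ∀ α : Type, #α ≤ c → FewCov α c)
    (α : Type) (hα : #α ≤ Order.succ c) : FewCov α (Order.succ c) := by
  classical
  let ι := (Order.succ c).ord.ToType
  have hα' : #α ≤ #ι := by rw [Cardinal.mk_ord_toType]; exact hα
  obtain ⟨f⟩ := hα'
  have hcf : ℵ₀ < (Order.succ c).ord.cof := by
    rw [(Cardinal.isRegular_succ hc).cof_ord]
    exact Order.lt_succ_of_le hc
  choose T hT hTc hTcov using fun γ : ι => h (Iio γ) (Order.lt_succ_iff.1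
    (Cardinal.mk_Iio_toType_ord_lt γ))
  refine ⟨⋃ γ : ι, (fun A : Set (Iio γ) => f ⁻¹' (Subtype.val '' A)) '' T γ, ?_, ?_, ?_⟩
  · refine le_trans (Cardinal.mk_iUnion_le_sum_mk) ?_
    refine le_trans (Cardinal.sum_le_sum _ (fun _ => c) fun γ =>
      le_trans Cardinal.mk_image_le (hT γ)) ?_
    rw [Cardinal.sum_const, Cardinal.mk_ord_toType]
    simp only [Cardinal.lift_id]
    exact le_trans (mul_le_mul' le_rfl (Order.le_succ c))
      (Cardinal.mul_eq_self (hc.trans (Order.le_succ c))).le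
  · intro B hB
    obtain ⟨γ, A, hA, rfl⟩ := mem_iUnion.1 hB
    exact ((hTc γ A hA).image _).preimage f.injective
  · intro C hC
    obtain ⟨γ, hγ⟩ := bounded_of_countable hcf (hC.image f)
    obtain ⟨A, hA, hCA⟩ := hTcov γ (Subtype.val ⁻¹' (f '' C))
      ((hC.image f).preimage Subtype.val_injective)
    refine ⟨_, mem_iUnion.2 ⟨γ, A, hA, rfl⟩, fun x hx => ?_⟩
    exact ⟨⟨f x, hγ ⟨x, hx, rfl⟩⟩, hCA ⟨x, hx, rfl⟩, rfl⟩

theorem fewCov_aleph (n : ℕ) : ∀ α : Type, #α ≤ ℵ_ n → FewCov α (ℵ_ n) := by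
  induction n with
  | zero =>
    intro α hα
    simp only [Nat.cast_zero, Cardinal.aleph_zero] at hα ⊢
    exact fewCov_base α hα
  | succ n ih =>
    intro α hα
    rw [Nat.cast_succ, Cardinal.aleph_add_one] at hα ⊢
    exact fewCov_succ (Cardinal.aleph0_le_aleph _) ih α hα

end Pool.Agent.Lib.MP_ddd032_lc
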