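import Mathlib

set_option autoImplicit false

/-!
Cylinders in Cantor space.
-/

namespace Pool.Agent.Lib.MP_ddd032_lc

open Set Topology

/-- Cantor space -/
abbrev X := ℕ → Bool

/-- initial segment -/
def pre (x : X) (n : ℕ) : List Bool := (List.range n).map x

theorem pre_length (x : X) (n : ℕ) : (pre x n).length = n := by simp [pre]

theorem pre_eq_iff {x y : X} {n : ℕ} : pre x n = pre y n ↔ ∀ i < n, x i = y i := by
  simp [pre]

theorem pre_prefix (x : X) {m n : ℕ} (h : m ≤ n) : pre x m <+: pre x n := by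
  rw [List.prefix_iff_eq_take]
  simp only [pre, List.length_map, List.length_range]
  rw [← List.map_take, List.take_range, min_eq_left h]

theorem pre_take (x : X) {m n : ℕ} (h : m ≤ n) : (pre x n).take m = pre x m := by
  have := pre_prefix x h
  rw [List.prefix_iff_eq_take, pre_length] at this
  exact this.symm

theorem pre_dropLast (x : X) (n : ℕ) : (pre x (n + 1)).dropLast = pre x n := by
  rw [List.dropLast_eq_take, pre_length]
  exact pre_take x (Nat.le_succ n)

/-- cylinder -/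
def cyl (s : List Bool) : Set X := {x | pre x s.length = s}

theorem mem_cyl {x : X} {s : List Bool} : x ∈ cyl s ↔ pre x s.length = s := Iff.rfl

theorem mem_cyl_pre {x y : X} {n : ℕ} : y ∈ cyl (pre x n) ↔ pre y n = pre x n := by
  rw [mem_cyl, pre_length]

theorem self_mem_cyl (x : X) (n : ℕ) : x ∈ cyl (pre x n) := mem_cyl_pre.2 rfl

theorem mem_cyl_iff_prefix {x : X} {s : List Bool} {n : ℕ} (h : s.length ≤ n) :
    x ∈ cyl s ↔ s <+: pre x n := by
  rw [List.prefix_iff_eq_take, pre_take x h, mem_cyl, eq_comm]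

theorem cyl_anti {s t : List Bool} (h : s <+: t) : cyl t ⊆ cyl s := by
  intro x hx
  rw [mem_cyl_iff_prefix (h.length_le)]
  rw [mem_cyl] at hx
  rw [hx]; exact h

theorem cyl_nil : cyl [] = univ := by
  ext x; simp [cyl, pre]

theorem prefix_or {x : X} {s t : List Bool} (hs : x ∈ cyl s) (ht : x ∈ cyl t) :
    s <+: t ∨ t <+: s := by
  rw [mem_cyl] at hs ht
  rcases le_total s.length t.length with h | h
  · left; rw [← hs, ← ht]; exact pre_prefix x h
  · right; rw [← hs, ← ht]; exact pre_prefix x h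

theorem cyl_nonempty (s : List Bool) : (cyl s).Nonempty := by
  refine ⟨fun i => s.getD i false, ?_⟩
  rw [mem_cyl]
  apply List.ext_getElem
  · simp [pre]
  · intro i h1 h2
    simp [pre, List.getD_eq_getElem?_getD, h2]

theorem isOpen_pre (P : List Bool → Prop) (n : ℕ) : IsOpen {x : X | P (pre x n)} := by
  rw [isOpen_iff_forall_mem_open]
  intro x hx
  refine ⟨Set.pi (↑(Finset.range n)) (fun i => {x i}), ?_, ?_, ?_⟩
  · intro y hy
    have : pre y n = pre x n := pre_eq_iff.2 fun i hi => by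
      simpa using hy i (by simpa using hi)
    show P (pre y n)
    rw [this]; exact hx
  · exact isOpen_set_pi (Finset.finite_toSet _) (fun i _ => isOpen_discrete _)
  · intro i _; rfl

theorem isOpen_pre₂ (P : List Bool → List Bool → Prop) (m n : ℕ) :
    IsOpen {z : X × X | P (pre z.1 m) (pre z.2 n)} := by
  rw [isOpen_iff_forall_mem_open]
  intro z hz
  refine ⟨{w | w.1 ∈ {x | pre x m = pre z.1 m}} ∩ {w | w.2 ∈ {x | pre x n = pre z.2 n}}, ?_, ?_, ?_⟩
  · rintro w ⟨h1, h2⟩
    have h1' : pre w.1 m = pre z.1 m := h1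
    have h2' : pre w.2 n = pre z.2 n := h2
    show P (pre w.1 m) (pre w.2 n)
    rw [h1', h2']; exact hz
  · exact ((isOpen_pre (fun s => s = pre z.1 m) m).preimage continuous_fst).inter
      ((isOpen_pre (fun s => s = pre z.2 n) n).preimage continuous_snd)
  · exact ⟨rfl, rfl⟩

theorem isClosed_pre₂ (P : List Bool → List Bool → Prop) (m n : ℕ) :
    IsClosed {z : X × X | P (pre z.1 m) (pre z.2 n)} := by
  rw [← isOpen_compl_iff]
  exact isOpen_pre₂ (fun s t => ¬ P s t) m n

theorem isOpen_cyl (s : List Bool) : IsOpen (cyl s) := isOpen_pre (fun t => t = s) s.length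

theorem isClosed_cyl (s : List Bool) : IsClosed (cyl s) := by
  rw [← isOpen_compl_iff]
  exact isOpen_pre (fun t => ¬ t = s) s.length

theorem exists_cyl_subset {U : Set X} (hU : IsOpen U) {x : X} (hx : x ∈ U) :
    ∃ n, cyl (pre x n) ⊆ U := by
  obtain ⟨I, u, h1, h2⟩ := isOpen_pi_iff.1 hU x hx
  refine ⟨I.sup id + 1, fun y hy => h2 ?_⟩
  intro i hi
  have hi' : i < I.sup id + 1 := Nat.lt_succ_of_le (Finset.le_sup (f := id) hi)
  rw [mem_cyl_pre, pre_eq_iff] at hy
  rw [hy i hi']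
  exact (h1 i hi).2

theorem exists_cyl_subset' {U : Set X} (hU : IsOpen U) (hne : U.Nonempty) :
    ∃ s, cyl s ⊆ U := by
  obtain ⟨x, hx⟩ := hne
  obtain ⟨n, hn⟩ := exists_cyl_subset hU hx
  exact ⟨_, hn⟩

theorem mem_closure_iff' {S : Set (X × X)} {z : X × X} : z ∈ closure S ↔
    ∀ n, ∃ w ∈ S, pre w.1 n = pre z.1 n ∧ pre w.2 n = pre z.2 n := by
  constructor
  · intro h n
    rw [mem_closure_iff] at h
    obtain ⟨w, h1, h2⟩ := h _ (isOpen_pre₂ (fun s t => s = pre z.1 n ∧ t = pre z.2 n) n n)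
      ⟨rfl, rfl⟩
    exact ⟨w, h2, h1⟩
  · intro h
    rw [mem_closure_iff]
    intro U hU hz
    obtain ⟨u, v, hu, hv, hzu, hzv, huv⟩ := isOpen_prod_iff.1 hU z.1 z.2 hz
    obtain ⟨m, hm⟩ := exists_cyl_subset hu hzu
    obtain ⟨n, hn⟩ := exists_cyl_subset hv hzv
    obtain ⟨w, hw, h1, h2⟩ := h (max m n)
    refine ⟨w, huv ⟨hm ?_, hn ?_⟩, hw⟩
    · exact cyl_anti (pre_prefix _ (le_max_left m n)) (mem_cyl_pre.2 h1)
    · exact cyl_anti (pre_prefix _ (le_max_right m n)) (mem_cyl_pre.2 h2)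

theorem eq_of_pre {x y : X} (h : ∀ n, pre x n = pre y n) : x = y := by
  funext i
  exact pre_eq_iff.1 (h (i + 1)) i (Nat.lt_succ_self i)

end Pool.Agent.Lib.MP_ddd032_lc
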