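import Mathlib

set_option autoImplicit false

/-!
Weak and full Baumgartner axioms for a topological space, and the cardinal invariants used.
-/

namespace Pool.Agent.Lib.MP_ddd032_lc

open Cardinal Set Filter

/-- `A` is `κ`-dense in `Y`: it meets every nonempty open set in exactly `κ` points. -/
def KDense {Y : Type} [TopologicalSpace Y] (κ : Cardinal.{0}) (A : Set Y) : Prop :=
  ∀ U : Set Y, IsOpen U → U.Nonempty → #(A ∩ U : Set Y) = κ

/-- The full axiom: any two `κ`-dense subsets of `Y` are mapped onto each other by a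
homeomorphism of `Y`. -/
def BA (κ : Cardinal.{0}) (Y : Type) [TopologicalSpace Y] : Prop :=
  ∀ A B : Set Y, KDense κ A → KDense κ B → ∃ h : Y ≃ₜ Y, h '' A = B

/-- The weak axiom: any two `κ`-dense subsets of `Y` are homeomorphic as spaces. -/
def BAweak (κ : Cardinal.{0}) (Y : Type) [TopologicalSpace Y] : Prop :=
  ∀ A B : Set Y, KDense κ A → KDense κ B → Nonempty (A ≃ₜ B)

/-- The unbounding number: the least size of a family of functions not dominated (modulo finite
sets) by a single function. -/
noncomputable def bNum : Cardinal.{0} :=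
  sInf {c | ∃ F : Set (ℕ → ℕ), #F = c ∧ ¬ ∃ g : ℕ → ℕ, ∀ f ∈ F, ∀ᶠ n in atTop, f n ≤ g n}

/-- The covering number of the meager ideal: the least size of a family of meager subsets of
Cantor space that covers Cantor space. -/
noncomputable def covM : Cardinal.{0} :=
  sInf {c | ∃ S : Set (Set (ℕ → Bool)), #S = c ∧ (∀ M ∈ S, IsMeagre M) ∧ ⋃₀ S = Set.univ}

/-- The uniformity of the meager ideal: the least size of a nonmeager subset of Cantor space. -/
noncomputable def nonM : Cardinal.{0} :=
  sInf {c | ∃ A : Set (ℕ → Bool), #A = c ∧ ¬ IsMeagre A}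

/-- `κ` has uncountable cofinality and the countable subsets of `κ` are covered by fewer than
`non(M)` countable subsets of `κ`. -/
def FewCountable (κ : Cardinal.{0}) : Prop :=
  ℵ₀ < κ.ord.cof ∧ ∃ S : Set (Set κ.ord.ToType), #S < nonM ∧ (∀ A ∈ S, A.Countable) ∧
    ∀ C : Set κ.ord.ToType, C.Countable → ∃ A ∈ S, C ⊆ A

/-- Every countable subset of the subspace `S` of Cantor space is contained in a `G_δ` subset of
`S` with fewer than `κ` points. -/
def IsThin (κ : Cardinal.{0}) (S : Set (ℕ → Bool)) : Prop :=
  ∀ C : Set S, C.Countable → ∃ G : Set S, IsGδ G ∧ C ⊆ G ∧ #G < κ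

end Pool.Agent.Lib.MP_ddd032_lc
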