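import Pool.Agent.Lib.MP_ddd032_lc.Cover

set_option autoImplicit false

/-!
The equivalence of the weak and the full axioms.
-/

namespace Pool.Agent.Lib.MP_ddd032_lc

open Cardinal Set Filter Topology

theorem IsThin.thn {κ : Cardinal.{0}} {S : Set X} (hS : IsThin κ S) : Thn κ S := by
  intro C hC
  obtain ⟨G, hG, hCG, hGκ⟩ := hS _ (hC.preimage Subtype.val_injective)
  obtain ⟨U, hU, hUe⟩ := isGδ_iff_eq_iInter_nat.1 hG
  have h2 : ∀ n, ∃ K : Set X, IsClosed K ∧ Subtype.val ⁻¹' K = (U n)ᶜ := fun n =>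
    isClosed_induced_iff.1 (hU n).isClosed_compl
  choose K hK hKe using h2
  have hmem : ∀ n (a : S), a.1 ∈ K n ↔ a ∉ U n := fun n a => Set.ext_iff.1 (hKe n) a
  refine ⟨K, hK, fun n => ?_, lt_of_le_of_lt ?_ hGκ⟩
  · rw [disjoint_left]
    rintro x hxK ⟨hxS, hxC⟩
    have h3 : (⟨x, hxS⟩ : S) ∈ ⋂ n, U n := by
      rw [← hUe]; exact hCG hxC
    exact (hmem n ⟨x, hxS⟩).1 hxK (mem_iInter.1 h3 n)
  · have h3 : S \ ⋃ n, K n ⊆ Subtype.val '' G := by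
      rintro x ⟨hxS, hxK⟩
      refine ⟨⟨x, hxS⟩, ?_, rfl⟩
      rw [hUe, mem_iInter]
      intro n
      by_contra hn
      exact hxK (mem_iUnion.2 ⟨n, (hmem n ⟨x, hxS⟩).2 hn⟩)
    exact le_trans (Cardinal.mk_le_mk_of_subset h3) Cardinal.mk_image_le

theorem thn_prod {κ : Cardinal.{0}} {S : Set X} (hS : Thn κ S) :
    Thn κ ((fun x : X => (x, x)) '' S) := by
  intro C hC
  obtain ⟨H, hH, hd, hc⟩ := hS ((fun x : X => (x, x)) ⁻¹' C)
    (hC.preimage fun x y h => (Prod.mk.inj h).1)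
  refine ⟨fun n => Prod.fst ⁻¹' H n, fun n => (hH n).preimage continuous_fst, fun n => ?_,
    lt_of_le_of_lt ?_ hc⟩
  · rw [disjoint_left]
    rintro _ hx ⟨⟨x, hxS, rfl⟩, hxC⟩
    exact disjoint_left.1 (hd n) hx ⟨hxS, hxC⟩
  · have h3 : (fun x : X => (x, x)) '' S \ ⋃ n, Prod.fst ⁻¹' H n ⊆
        (fun x : X => (x, x)) '' (S \ ⋃ n, H n) := by
      rintro _ ⟨⟨x, hx, rfl⟩, hxH⟩
      refine ⟨x, ⟨hx, fun h => hxH ?_⟩, rfl⟩
      obtain ⟨n, hn⟩ := mem_iUnion.1 h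
      exact mem_iUnion.2 ⟨n, hn⟩
    exact le_trans (Cardinal.mk_le_mk_of_subset h3) Cardinal.mk_image_le

theorem fewCountable_aleph {n : ℕ} (h : ℵ_ ((n : Ordinal.{0}) + 1) < nonM) :
    FewCountable (ℵ_ ((n : Ordinal.{0}) + 1)) := by
  refine ⟨?_, ?_⟩
  · rw [(Cardinal.isRegular_aleph_add_one (n : Ordinal.{0})).cof_ord, Cardinal.aleph0_lt_aleph]
    exact Order.lt_add_one_iff.2 bot_le
  · obtain ⟨S, hS, hSc, hcov⟩ := fewCov_aleph (n + 1)
      (ℵ_ ((n : Ordinal.{0}) + 1)).ord.ToType (by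
        rw [Cardinal.mk_ord_toType, Nat.cast_succ])
    refine ⟨S, lt_of_le_of_lt hS ?_, hSc, hcov⟩
    rw [Nat.cast_succ]
    exact h

/-- the range of cardinals treated -/
def Rng' (κ : Cardinal.{0}) : Prop :=
  κ < ℵ_ Ordinal.omega0 ∨ κ ≤ bNum ∨ κ ≤ covM ∨ nonM ≤ κ ∨ FewCountable κ ∨
    ∃ S : Set (ℕ → Bool), #S = κ ∧ IsThin κ S

theorem pr_of_few {κ : Cardinal.{0}} (hb : bNum ≤ κ) (hc : κ ≤ 𝔠) (h : FewCountable κ) :
    Pr κ := by
  obtain ⟨hcf, S, hS, hSc, hcov⟩ := h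
  obtain ⟨P, hP, hT⟩ := exists_thn hcf hc S hS hSc hcov
  exact pr_of_thn hb hc hP hT

theorem pr_of_rng' {κ : Cardinal.{0}} (hb : bNum ≤ κ) (hc : κ ≤ 𝔠) (h : Rng' κ) : Pr κ := by
  rcases h with h | h | h | h | h | ⟨S, hS, hT⟩
  · by_cases hn : nonM ≤ κ
    · exact pr_of_nonM hb hn hc
    push Not at hn
    obtain ⟨o, rfl⟩ := Cardinal.mem_range_aleph_iff.2 (aleph0_lt_bNum.le.trans hb)
    rw [Cardinal.aleph_lt_aleph, Ordinal.lt_omega0] at h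
    obtain ⟨m, rfl⟩ := h
    cases m with
    | zero =>
      exfalso
      rw [Nat.cast_zero, Cardinal.aleph_zero] at hb
      exact absurd aleph0_lt_bNum (not_lt.2 hb)
    | succ n =>
      rw [Nat.cast_succ] at hb hc hn ⊢
      exact pr_of_few hb hc (fewCountable_aleph hn)
  · exact pr_of_rng hb hc (Or.inl h)
  · exact pr_of_rng hb hc (Or.inr (Or.inl h))
  · exact pr_of_rng hb hc (Or.inr (Or.inr (Or.inl h)))
  · exact pr_of_few hb hc h
  · refine pr_of_thn hb hc (P := (fun x : X => (x, x)) '' S) ?_ (thn_prod hT.thn)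
    rw [Cardinal.mk_image_eq (fun x y h => (Prod.mk.inj h).1), hS]

theorem cantor' {κ : Cardinal.{0}} (h : Rng' κ) : BAweak κ X ↔ BA κ X := by
  refine ⟨fun hw => ?_, BAweak_of_BA⟩
  by_cases hb : κ < bNum
  · exact BA_of_lt hb hw
  · push Not at hb
    by_cases hc : κ ≤ 𝔠
    · exact absurd hw (not_weak_of_pr (pr_of_rng' hb hc h))
    · exact BA_of_gt (by rw [mk_X]; exact not_le.1 hc)

theorem baire' {κ : Cardinal.{0}} (h : Rng' κ) : BAweak κ (ℕ → ℕ) ↔ BA κ (ℕ → ℕ) := by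
  refine ⟨fun hw => ?_, BAweak_of_BA⟩
  by_cases hb : κ < bNum
  · exact BA_baire_of_lt hb hw
  · push Not at hb
    by_cases hc : κ ≤ 𝔠
    · exact absurd hw (not_weak_baire_of_pr (pr_of_rng' hb hc h))
    · exact BA_of_gt (lt_of_le_of_lt (by simp) (not_le.1 hc))

end Pool.Agent.Lib.MP_ddd032_lc
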