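import Pool.Agent.Lib.MP_ddd032_lc.Shift

set_option autoImplicit false

/-!
Sets all of whose countable subsets are relatively `G_δ`, obtained from ladders.
-/

namespace Pool.Agent.Lib.MP_ddd032_lc

open Cardinal Set Filter Topology

/-- `T` is covered by an `F_σ` set disjoint from `C` -/
def Sep {Y : Type} [TopologicalSpace Y] (T C : Set Y) : Prop :=
  ∃ H : ℕ → Set Y, (∀ n, IsClosed (H n)) ∧ T ⊆ (⋃ n, H n) ∧ ∀ n, Disjoint (H n) C

section sep

variable {Y : Type} [TopologicalSpace Y] {T T' C C' : Set Y}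

theorem Sep.mono (h : Sep T C) (hT : T' ⊆ T) (hC : C' ⊆ C) : Sep T' C' := by
  obtain ⟨H, h1, h2, h3⟩ := h
  exact ⟨H, h1, hT.trans h2, fun n => (h3 n).mono_right hC⟩

theorem Sep.of_countable {ι : Type} [Countable ι] {H : ι → Set Y} (h1 : ∀ i, IsClosed (H i))
    (h2 : T ⊆ ⋃ i, H i) (h3 : ∀ i, Disjoint (H i) C) : Sep T C := by
  rcases isEmpty_or_nonempty ι with hι | hι
  · refine ⟨fun _ => ∅, fun _ => isClosed_empty, ?_, fun _ => disjoint_bot_left⟩
    intro x hx
    obtain ⟨i, -⟩ := mem_iUnion.1 (h2 hx)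
    exact (hι.false i).elim
  · obtain ⟨e, he⟩ := exists_surjective_nat ι
    refine ⟨fun n => H (e n), fun n => h1 _, ?_, fun n => h3 _⟩
    intro x hx
    obtain ⟨i, hi⟩ := mem_iUnion.1 (h2 hx)
    obtain ⟨n, rfl⟩ := he i
    exact mem_iUnion.2 ⟨n, hi⟩

theorem Sep.iUnion {ι : Type} [Countable ι] {T : ι → Set Y} (h : ∀ i, Sep (T i) C) :
    Sep (⋃ i, T i) C := by
  choose H h1 h2 h3 using h
  refine Sep.of_countable (ι := ι × ℕ) (H := fun p => H p.1 p.2) (fun p => h1 _ _) ?_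
    (fun p => h3 _ _)
  intro x hx
  obtain ⟨i, hi⟩ := mem_iUnion.1 hx
  obtain ⟨n, hn⟩ := mem_iUnion.1 (h2 i hi)
  exact mem_iUnion.2 ⟨(i, n), hn⟩

theorem Sep.union (h : Sep T C) (h' : Sep T' C) : Sep (T ∪ T') C := by
  have : T ∪ T' = ⋃ b : Bool, cond b T T' := by
    ext x; simp [or_comm]
  rw [this]
  refine Sep.iUnion fun b => ?_
  cases b
  · exact h'
  · exact h

theorem Sep.inter (h : Sep T C) (h' : Sep T C') : Sep T (C ∪ C') := by
  obtain ⟨H, h1, h2, h3⟩ := h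
  obtain ⟨H', h1', h2', h3'⟩ := h'
  refine Sep.of_countable (ι := ℕ × ℕ) (H := fun p => H p.1 ∩ H' p.2)
    (fun p => (h1 _).inter (h1' _)) ?_ (fun p => ?_)
  · intro x hx
    obtain ⟨i, hi⟩ := mem_iUnion.1 (h2 hx)
    obtain ⟨j, hj⟩ := mem_iUnion.1 (h2' hx)
    exact mem_iUnion.2 ⟨(i, j), hi, hj⟩
  · rw [disjoint_union_right]
    exact ⟨(h3 _).mono_left inter_subset_left, (h3' _).mono_left inter_subset_right⟩

theorem Sep.closed (hT : IsClosed T) (h : Disjoint T C) : Sep T C :=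
  ⟨fun _ => T, fun _ => hT, subset_iUnion (fun _ : ℕ => T) 0, fun _ => h⟩

theorem Sep.empty : Sep (∅ : Set Y) C := Sep.closed isClosed_empty (disjoint_bot_left)

end sep

/-- every countable subset is relatively `G_δ` (outer formulation) -/
def Lam {Y : Type} [TopologicalSpace Y] (P : Set Y) : Prop :=
  ∀ C : Set Y, C.Countable → Sep (P \ C) (P ∩ C)

theorem lam_of_ladder {Y : Type} [TopologicalSpace Y] [T1Space Y] {ι : Type} [LinearOrder ι]
    [WellFoundedLT ι] (p : ι → Y)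
    (S1 : ∀ β, Sep (p '' Iic β) (p '' Ioi β)) (S2 : ∀ β, Sep (p '' Ioi β) (p '' Iic β))
    (S3 : ∀ y : Y, Sep ({y}ᶜ) {y}) : Lam (range p) := by
  have hinj : Function.Injective p := by
    have key : ∀ α β, α < β → p α ≠ p β := by
      intro α β hlt heq
      obtain ⟨H, -, h2, h3⟩ := S1 α
      obtain ⟨n, hn⟩ := mem_iUnion.1 (h2 ⟨α, self_mem_Iic, rfl⟩)
      exact disjoint_left.1 (h3 n) hn ⟨β, hlt, heq.symm⟩
    intro α β h
    rcases lt_trichotomy α β with h' | h' | h'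
    · exact absurd h (key _ _ h')
    · exact h'
    · exact absurd h.symm (key _ _ h')
  intro C hC
  -- the claim for lower sets
  have step : ∀ S : Set ι, (∀ β ∈ S, Sep (p '' Iic β \ C) (p '' Iic β ∩ C)) → IsLowerSet S →
      Sep (p '' S \ C) (p '' S ∩ C) := by
    intro S hS hlow
    by_cases hA : ∃ β ∈ S, p '' S ∩ C ⊆ p '' Iic β
    · obtain ⟨β, hβ, hsub⟩ := hA
      have h1 : Sep (p '' Iic β \ C) (p '' S ∩ C) :=
        (hS β hβ).mono Subset.rfl fun y hy => ⟨hsub hy, hy.2⟩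
      have h2 : Sep (p '' Ioi β) (p '' S ∩ C) := (S2 β).mono Subset.rfl hsub
      refine (h1.union h2).mono ?_ Subset.rfl
      rintro _ ⟨⟨γ, hγ, rfl⟩, hγC⟩
      rcases le_or_gt γ β with h | h
      · exact Or.inl ⟨⟨γ, h, rfl⟩, hγC⟩
      · exact Or.inr ⟨γ, h, rfl⟩
    · push Not at hA
      have hcount : {γ | γ ∈ S ∧ p γ ∈ C}.Countable := by
        have : {γ | γ ∈ S ∧ p γ ∈ C} ⊆ p ⁻¹' C := fun γ hγ => hγ.2
        exact (hC.preimage hinj).mono this
      have hcc : Countable ↥{γ | γ ∈ S ∧ p γ ∈ C} := hcount.to_subtype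
      have h1 : Sep (⋃ γ : ↥{γ | γ ∈ S ∧ p γ ∈ C}, (p '' Iic γ.1 \ C)) (p '' S ∩ C) := by
        refine Sep.iUnion fun γ => ?_
        have h2 := (hS γ.1 γ.2.1).inter ((S1 γ.1).mono (sdiff_subset (t := C)) Subset.rfl)
        refine h2.mono Subset.rfl ?_
        rintro _ ⟨⟨δ, hδ, rfl⟩, hδC⟩
        rcases le_or_gt δ γ.1 with h | h
        · exact Or.inl ⟨⟨δ, h, rfl⟩, hδC⟩
        · exact Or.inr ⟨δ, h, rfl⟩
      refine h1.mono ?_ Subset.rfl
      rintro _ ⟨⟨β, hβ, rfl⟩, hβC⟩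
      obtain ⟨y, ⟨⟨γ, hγ, rfl⟩, hγC⟩, hy⟩ := not_subset.1 (hA β hβ)
      have hlt : β < γ := by
        by_contra hle
        push Not at hle
        exact hy ⟨γ, hle, rfl⟩
      exact mem_iUnion.2 ⟨⟨γ, hγ, hγC⟩, ⟨β, hlt.le, rfl⟩, hβC⟩
  have claim : ∀ α, Sep (p '' Iic α \ C) (p '' Iic α ∩ C) := by
    intro α
    induction α using WellFoundedLT.induction with
    | ind α ih =>
      have h1 := step (Iio α) (fun β hβ => ih β hβ) (isLowerSet_Iio α)
      have hIic : p '' Iic α = p '' Iio α ∪ {p α} := by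
        rw [← Iio_union_right, image_union, image_singleton]
      have h2 : Sep (p '' Iio α \ C) (p '' Iic α ∩ C) := by
        refine (h1.inter ((S3 (p α)).mono ?_ Subset.rfl)).mono Subset.rfl ?_
        · rintro _ ⟨⟨β, hβ, rfl⟩, -⟩ h
          exact (ne_of_lt hβ) (hinj h)
        · rw [hIic]
          rintro y ⟨h | h, hC⟩
          · exact Or.inl ⟨h, hC⟩
          · exact Or.inr h
      have h3 : Sep ({p α} \ C) (p '' Iic α ∩ C) := by
        by_cases h : p α ∈ C
        · rw [sdiff_eq_empty.2 (singleton_subset_iff.2 h)]; exact Sep.empty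
        · refine Sep.closed (by
            rw [(sdiff_eq_left.2 (disjoint_singleton_left.2 h) : {p α} \ C = {p α})]
            exact isClosed_singleton) ?_
          rw [disjoint_left]
          rintro y ⟨rfl, -⟩ ⟨-, hyC⟩
          exact h hyC
      refine (h2.union h3).mono ?_ Subset.rfl
      rw [hIic, union_sdiff_distrib]
  have := step univ (fun β _ => claim β) isLowerSet_univ
  rwa [image_univ] at this

/-- a ladder for a relation with `F_σ` graph gives a set as wanted -/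
theorem lam_of_ladder_rel {ι : Type} [LinearOrder ι] [WellFoundedLT ι] (Φ : Set (X × X))
    (H : ℕ → Set (X × X)) (hH : ∀ n, IsClosed (H n)) (hΦ : Φ = ⋃ n, H n) (x z : ι → X)
    (h1 : ∀ α β, β < α → (x α, z β) ∉ Φ) (h2 : ∀ α β, β ≤ α → (x β, z α) ∈ Φ) :
    Lam (range fun α => (x α, z α)) ∧ Function.Injective fun α => (x α, z α) := by
  have S1 : ∀ β, Sep ((fun α => (x α, z α)) '' Iic β) ((fun α => (x α, z α)) '' Ioi β) := by
    intro β
    refine ⟨fun n => (fun q : X × X => (q.1, z β)) ⁻¹' H n, fun n => (hH n).preimage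
      (continuous_fst.prodMk continuous_const), ?_, fun n => ?_⟩
    · rintro _ ⟨α, hα, rfl⟩
      have := h2 β α hα
      rw [hΦ] at this
      obtain ⟨n, hn⟩ := mem_iUnion.1 this
      exact mem_iUnion.2 ⟨n, hn⟩
    · rw [disjoint_left]
      rintro _ hn ⟨α, hα, rfl⟩
      exact h1 α β hα (by rw [hΦ]; exact mem_iUnion.2 ⟨n, hn⟩)
  have hinj : Function.Injective fun α => (x α, z α) := by
    have key : ∀ α β, α < β → (x α, z α) ≠ (x β, z β) := by
      intro α β hlt heq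
      have := h2 α α le_rfl
      rw [(Prod.mk.inj heq).1] at this
      exact h1 β α hlt this
    intro α β h
    rcases lt_trichotomy α β with h' | h' | h'
    · exact absurd h (key _ _ h')
    · exact h'
    · exact absurd h.symm (key _ _ h')
  refine ⟨lam_of_ladder _ S1 ?_ ?_, hinj⟩
  · intro β
    rcases (Ioi β).eq_empty_or_nonempty with he | hne
    · rw [he, image_empty]; exact Sep.empty
    · obtain ⟨β', hβ', hmin⟩ := WellFounded.has_min (wellFounded_lt (α := ι)) (Ioi β) hne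
      refine ⟨fun n => (fun q : X × X => (x β', q.2)) ⁻¹' H n, fun n => (hH n).preimage
        (continuous_const.prodMk continuous_snd), ?_, fun n => ?_⟩
      · rintro _ ⟨α, hα, rfl⟩
        have := h2 α β' (not_lt.1 (hmin α hα))
        rw [hΦ] at this
        obtain ⟨n, hn⟩ := mem_iUnion.1 this
        exact mem_iUnion.2 ⟨n, hn⟩
      · rw [disjoint_left]
        rintro _ hn ⟨α, hα, rfl⟩
        exact h1 β' α (lt_of_le_of_lt hα hβ') (by rw [hΦ]; exact mem_iUnion.2 ⟨n, hn⟩)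
  · intro y
    refine ⟨fun n => {q | ¬ (pre q.1 n = pre y.1 n ∧ pre q.2 n = pre y.2 n)}, fun n =>
      isClosed_pre₂ (fun s t => ¬ (s = pre y.1 n ∧ t = pre y.2 n)) n n, ?_, fun n => ?_⟩
    · intro q hq
      by_contra hcon
      rw [mem_iUnion] at hcon
      push Not at hcon
      apply hq
      have h3 : ∀ n, pre q.1 n = pre y.1 n ∧ pre q.2 n = pre y.2 n := fun n => by
        by_contra h
        exact hcon n (fun h' h'' => h ⟨h', h''⟩)
      exact Prod.ext (eq_of_pre fun n => (h3 n).1) (eq_of_pre fun n => (h3 n).2)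
    · rw [disjoint_left]
      rintro q hq rfl
      exact hq ⟨rfl, rfl⟩

/-- existence of ladders -/
theorem exists_ladder {κ : Cardinal.{0}} (hκ : ℵ₀ ≤ κ) (Φ : Set (X × X)) (gx gz : Set X)
    (h1 : ∀ Z : Set X, Z ⊆ gz → #Z < κ → ∃ x ∈ gx, ∀ z ∈ Z, (x, z) ∉ Φ)
    (h2 : ∀ S : Set X, S ⊆ gx → #S < κ → ∃ z ∈ gz, ∀ x ∈ S, (x, z) ∈ Φ) :
    ∃ x z : κ.ord.ToType → X, (∀ α β, β < α → (x α, z β) ∉ Φ) ∧
      ∀ α β, β ≤ α → (x β, z α) ∈ Φ := by
  classical
  let ι := κ.ord.ToType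
  let xs : ∀ α : ι, (∀ β : ι, β < α → X × X) → X := fun α prev =>
    if h : ∃ x ∈ gx, ∀ β (hβ : β < α), (x, (prev β hβ).2) ∉ Φ then Classical.choose h else default
  let zs : ∀ α : ι, (∀ β : ι, β < α → X × X) → X := fun α prev =>
    if h : ∃ z ∈ gz, (∀ β (hβ : β < α), ((prev β hβ).1, z) ∈ Φ) ∧ (xs α prev, z) ∈ Φ then
      Classical.choose h else default
  let p : ι → X × X := (wellFounded_lt (α := ι)).fix fun α prev => (xs α prev, zs α prev)
  have hp : ∀ α, p α = (xs α fun β _ => p β, zs α fun β _ => p β) := by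
    intro α
    exact (wellFounded_lt (α := ι)).fix_eq _ α
  have hlt : ∀ α : ι, #(Iio α) < κ := fun α => Cardinal.mk_Iio_toType_ord_lt α
  have hle : ∀ α : ι, #(Iic α) < κ := by
    intro α
    have : (Iic α) = insert α (Iio α) := by
      ext β; simp [le_iff_eq_or_lt]
    rw [this]
    refine lt_of_le_of_lt (Cardinal.mk_insert_le) ?_
    exact Cardinal.add_lt_of_lt hκ (hlt α) (lt_of_lt_of_le Cardinal.one_lt_aleph0 hκ)
  have hclaim : ∀ α, ((p α).1 ∈ gx ∧ ∀ β < α, ((p α).1, (p β).2) ∉ Φ) ∧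
      ((p α).2 ∈ gz ∧ ∀ β ≤ α, ((p β).1, (p α).2) ∈ Φ) := by
    intro α
    induction α using WellFoundedLT.induction with
    | ind α ih =>
      have hx : (p α).1 ∈ gx ∧ ∀ β < α, ((p α).1, (p β).2) ∉ Φ := by
        have hex : ∃ x ∈ gx, ∀ β (_ : β < α), (x, (p β).2) ∉ Φ := by
          obtain ⟨x, hxg, hx⟩ := h1 ((fun β => (p β).2) '' Iio α) (by
            rintro _ ⟨γ, hγ, rfl⟩; exact (ih γ hγ).2.1)
            (lt_of_le_of_lt Cardinal.mk_image_le (hlt α))
          exact ⟨x, hxg, fun β hβ => hx _ ⟨β, hβ, rfl⟩⟩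
        have h3 : (p α).1 = Classical.choose hex := by
          rw [hp α]
          simp only [xs]
          rw [dif_pos hex]
        rw [h3]
        exact Classical.choose_spec hex
      refine ⟨hx, ?_⟩
      have hex : ∃ z ∈ gz, (∀ β (_ : β < α), ((p β).1, z) ∈ Φ) ∧
          (xs α (fun β _ => p β), z) ∈ Φ := by
        obtain ⟨z, hz, hz'⟩ := h2 ((fun β => (p β).1) '' Iic α) (by
            rintro _ ⟨γ, hγ, rfl⟩
            rcases (show γ ≤ α from hγ).lt_or_eq with h | h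
            · exact (ih γ h).1.1
            · rw [h]; exact hx.1)
          (lt_of_le_of_lt Cardinal.mk_image_le (hle α))
        refine ⟨z, hz, fun β hβ => hz' _ ⟨β, hβ.le, rfl⟩, ?_⟩
        have := hz' _ ⟨α, self_mem_Iic, rfl⟩
        simp only at this
        rw [hp α] at this
        exact this
      have h3 : (p α).2 = Classical.choose hex := by
        rw [hp α]
        simp only [zs]
        rw [dif_pos hex]
      have h4 := Classical.choose_spec hex
      rw [← h3] at h4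
      refine ⟨h4.1, fun β hβ => ?_⟩
      rcases hβ.lt_or_eq with h | h
      · exact h4.2.1 β h
      · rw [h]
        have h5 := h4.2.2
        have h6 : (p α).1 = xs α (fun β _ => p β) := by rw [hp α]
        rw [h6]; exact h5
  exact ⟨fun α => (p α).1, fun α => (p α).2, fun α β h => (hclaim α).1.2 β h,
    fun α β h => (hclaim α).2.2 β h⟩

theorem exists_lam {κ : Cardinal.{0}} (hκ : ℵ₀ ≤ κ) (Φ : Set (X × X)) (gx gz : Set X)
    (H : ℕ → Set (X × X)) (hH : ∀ n, IsClosed (H n)) (hΦ : Φ = ⋃ n, H n)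
    (h1 : ∀ Z : Set X, Z ⊆ gz → #Z < κ → ∃ x ∈ gx, ∀ z ∈ Z, (x, z) ∉ Φ)
    (h2 : ∀ S : Set X, S ⊆ gx → #S < κ → ∃ z ∈ gz, ∀ x ∈ S, (x, z) ∈ Φ) :
    ∃ P : Set (X × X), #P = κ ∧ Lam P := by
  obtain ⟨x, z, hx, hz⟩ := exists_ladder hκ Φ gx gz h1 h2
  obtain ⟨hl, hinj⟩ := lam_of_ladder_rel Φ H hH hΦ x z hx hz
  refine ⟨_, ?_, hl⟩
  rw [Cardinal.mk_range_eq _ hinj, Cardinal.mk_ord_toType]

theorem meagre_of_lt {S : Set X} (h : #S < nonM) : IsMeagre S := by
  by_contra hcon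
  exact absurd (csInf_le' (s := {c | ∃ A : Set (ℕ → Bool), #A = c ∧ ¬ IsMeagre A})
    ⟨S, rfl, hcon⟩) (not_le.2 h)

theorem exists_not_mem_of_lt {S : Set (Set X)} (h : #S < covM) (hS : ∀ M ∈ S, IsMeagre M) :
    ∃ x, ∀ M ∈ S, x ∉ M := by
  by_contra hcon
  push Not at hcon
  have hcov : ⋃₀ S = Set.univ := by
    ext x
    simp only [mem_univ, iff_true]
    obtain ⟨M, hM, hx⟩ := hcon x
    exact ⟨M, hM, hx⟩
  exact absurd (csInf_le' (s := {c | ∃ S : Set (Set (ℕ → Bool)), #S = c ∧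
    (∀ M ∈ S, IsMeagre M) ∧ ⋃₀ S = Set.univ}) ⟨S, rfl, hS, hcov⟩) (not_le.2 h)

/-- closed pieces of the coding of meager sets: `q.2` codes the meager set of all `x` with
`(x, q.2) ∈ ⋃ n, HM n` -/
def HM (n : ℕ) : Set (X × X) := {q | ∀ m, q.2 (Encodable.encode (n, pre q.1 m)) = false}

theorem isClosed_HM (n : ℕ) : IsClosed (HM n) := by
  have : HM n = ⋂ m, {q : X × X | q.2 (Encodable.encode (n, pre q.1 m)) = false} := by
    ext q; simp [HM]
  rw [this]
  refine isClosed_iInter fun m => ?_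
  rw [← isOpen_compl_iff]
  have h3 : {q : X × X | q.2 (Encodable.encode (n, pre q.1 m)) = false}ᶜ =
      ⋃ s : List Bool, {q : X × X | pre q.1 m = s} ∩
        {q : X × X | q.2 (Encodable.encode (n, s)) = true} := by
    ext q; simp
  rw [h3]
  refine isOpen_iUnion fun s => ?_
  refine ((isOpen_pre (fun t => t = s) m).preimage continuous_fst).inter ?_
  exact (isOpen_discrete ({true} : Set Bool)).preimage
    (f := fun q : X × X => q.2 (Encodable.encode (n, s)))
    ((continuous_apply _).comp continuous_snd)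

/-- codes of meager sets -/
def GM : Set X := {z | IsMeagre {x | (x, z) ∈ ⋃ n, HM n}}

theorem exists_code {S : Set X} (hcard : #S < nonM) :
    ∃ z ∈ GM, ∀ x ∈ S, (x, z) ∈ ⋃ n, HM n := by
  classical
  have hmea := meagre_of_lt hcard
  obtain ⟨T, hT, hTc, hTs⟩ := isMeagre_iff_countable_union_isNowhereDense.1 hmea
  obtain ⟨C, hC⟩ : ∃ C : ℕ → Set X, (∀ n, IsClosed (C n) ∧ IsNowhereDense (C n)) ∧
      S ⊆ ⋃ n, C n := by
    rcases T.eq_empty_or_nonempty with rfl | hne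
    · refine ⟨fun _ => ∅, fun _ => ⟨isClosed_empty, isNowhereDense_empty⟩, ?_⟩
      simpa using hTs
    · obtain ⟨f, rfl⟩ := hTc.exists_eq_range hne
      refine ⟨fun n => closure (f n), fun n => ⟨isClosed_closure, (hT _ ⟨n, rfl⟩).closure⟩, ?_⟩
      intro x hx
      obtain ⟨_, ⟨n, rfl⟩, hxn⟩ := hTs hx
      exact mem_iUnion.2 ⟨n, subset_closure hxn⟩
  let z : X := fun c => (Encodable.decode (α := ℕ × List Bool) c).elim false fun p =>
    decide (cyl p.2 ∩ C p.1 = ∅)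
  have hz : ∀ n s, z (Encodable.encode (n, s)) = decide (cyl s ∩ C n = ∅) := by
    intro n s; simp [z]
  have hsec : ∀ x, (x, z) ∈ ⋃ n, HM n ↔ x ∈ ⋃ n, C n := by
    intro x
    rw [mem_iUnion, mem_iUnion]
    refine exists_congr fun n => ?_
    constructor
    · intro h
      rw [← (hC.1 n).1.closure_eq, mem_closure_iff]
      intro U hU hxU
      obtain ⟨m, hm⟩ := exists_cyl_subset hU hxU
      have h3 := h m
      simp only [hz, decide_eq_false_iff_not] at h3
      obtain ⟨y, hy, hyC⟩ := nonempty_iff_ne_empty.2 h3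
      exact ⟨y, hm hy, hyC⟩
    · intro h m
      simp only [hz, decide_eq_false_iff_not]
      exact fun he => (he ▸ (⟨self_mem_cyl x m, h⟩ : x ∈ cyl (pre x m) ∩ C n) :
        x ∈ (∅ : Set X))
  refine ⟨z, ?_, fun x hx => (hsec x).2 (hC.2 hx)⟩
  show IsMeagre {x | (x, z) ∈ ⋃ n, HM n}
  have : {x | (x, z) ∈ ⋃ n, HM n} = ⋃ n, C n := by ext x; exact hsec x
  rw [this]
  exact isMeagre_iUnion fun n => (hC.1 n).2.isMeagre

/-- ladder for the meager ideal -/
theorem exists_lam_meager {κ : Cardinal.{0}} (hκ : ℵ₀ ≤ κ) (h1 : κ ≤ covM) (h2 : κ ≤ nonM) :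
    ∃ P : Set (X × X), #P = κ ∧ Lam P := by
  refine exists_lam hκ (⋃ n, HM n) univ GM HM isClosed_HM rfl ?_ ?_
  · intro Z hZ hcard
    obtain ⟨x, hx⟩ := exists_not_mem_of_lt (S := (fun z => {x | (x, z) ∈ ⋃ n, HM n}) '' Z)
      (lt_of_le_of_lt Cardinal.mk_image_le (lt_of_lt_of_le hcard h1)) (by
        rintro _ ⟨z, hz, rfl⟩; exact hZ hz)
    exact ⟨x, trivial, fun z hz hxz => hx _ ⟨z, hz, rfl⟩ hxz⟩
  · intro S _ hcard
    exact exists_code (lt_of_lt_of_le hcard h2)

/-- ladder for eventual domination -/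
theorem exists_lam_b : ℵ₀ ≤ bNum → ∃ P : Set (X × X), #P = bNum ∧ Lam P := by
  classical
  intro hκ
  let cd : (ℕ → ℕ) → X := fun f c => decide (c.unpair.2 < f c.unpair.1)
  let H : ℕ → Set (X × X) := fun k =>
    {q | ∀ n ≥ k, ∀ m, q.1 (Nat.pair n m) = true → q.2 (Nat.pair n m) = true}
  have hH : ∀ n, IsClosed (H n) := by
    intro k
    have : H k = ⋂ n, ⋂ (_ : n ≥ k), ⋂ m, {q : X × X | q.1 (Nat.pair n m) = true →
        q.2 (Nat.pair n m) = true} := by
      ext q; simp [H]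
    rw [this]
    refine isClosed_iInter fun n => isClosed_iInter fun _ => isClosed_iInter fun m => ?_
    have h3 : {q : X × X | q.1 (Nat.pair n m) = true → q.2 (Nat.pair n m) = true} =
        (fun q : X × X => (q.1 (Nat.pair n m), q.2 (Nat.pair n m))) ⁻¹'
          {b : Bool × Bool | b.1 = true → b.2 = true} := rfl
    rw [h3]
    exact (isClosed_discrete _).preimage (((continuous_apply _).comp continuous_fst).prodMk
      ((continuous_apply _).comp continuous_snd))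
  have hcd : ∀ f g : ℕ → ℕ, (cd f, cd g) ∈ ⋃ n, H n ↔ ∀ᶠ n in atTop, f n ≤ g n := by
    intro f g
    rw [mem_iUnion, eventually_atTop]
    refine exists_congr fun k => ?_
    constructor
    · intro h n hn
      by_contra hlt
      push Not at hlt
      have := h n hn (g n) (by simp [cd, hlt])
      simp [cd] at this
    · intro h n hn m hm
      have h3 := h n hn
      simp only [cd, Nat.unpair_pair, decide_eq_true_eq] at hm ⊢
      omega
  refine exists_lam hκ (⋃ n, H n) (range cd) (range cd) H hH rfl ?_ ?_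
  · intro Z hZ hcard
    have h3 : ∃ F : Set (ℕ → ℕ), cd '' F = Z ∧ #F < bNum := by
      choose! f hf using fun z (hz : z ∈ Z) => hZ hz
      refine ⟨f '' Z, ?_, lt_of_le_of_lt Cardinal.mk_image_le hcard⟩
      ext z
      constructor
      · rintro ⟨_, ⟨z, hz, rfl⟩, rfl⟩; rw [hf z hz]; exact hz
      · intro hz; exact ⟨f z, ⟨z, hz, rfl⟩, hf z hz⟩
    obtain ⟨F, rfl, hF⟩ := h3
    obtain ⟨g, hg⟩ := bounded_of_lt hF
    refine ⟨cd (fun n => g n + 1), ⟨fun n => g n + 1, rfl⟩, ?_⟩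
    rintro _ ⟨f, hf, rfl⟩ h
    have h4 := ((hcd (fun n => g n + 1) f).1 h).and (hg f hf)
    obtain ⟨n, hn⟩ := h4.exists
    have h5 : g n + 1 ≤ f n := hn.1
    omega
  · intro S hS hcard
    have h3 : ∃ F : Set (ℕ → ℕ), cd '' F = S ∧ #F < bNum := by
      choose! f hf using fun z (hz : z ∈ S) => hS hz
      refine ⟨f '' S, ?_, lt_of_le_of_lt Cardinal.mk_image_le hcard⟩
      ext z
      constructor
      · rintro ⟨_, ⟨z, hz, rfl⟩, rfl⟩; rw [hf z hz]; exact hz
      · intro hz; exact ⟨f z, ⟨z, hz, rfl⟩, hf z hz⟩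
    obtain ⟨F, rfl, hF⟩ := h3
    obtain ⟨g, hg⟩ := bounded_of_lt hF
    refine ⟨cd g, ⟨g, rfl⟩, ?_⟩
    rintro _ ⟨f, hf, rfl⟩
    exact (hcd f g).2 (hg f hf)

end Pool.Agent.Lib.MP_ddd032_lc
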