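import Pool.Agent.Lib.MP_ddd032_lc.Cyl

set_option autoImplicit false

/-!
Gluing closed partial homeomorphisms of Cantor space into one homeomorphism.
-/

namespace Pool.Agent.Lib.MP_ddd032_lc

open Set Topology

/-- greedy injection -/
theorem greedy {α β : Type} [Countable α] (R : α → β → Prop) (h : ∀ a, {b | R a b}.Infinite) :
    ∃ f : α → β, Function.Injective f ∧ ∀ a, R a (f a) := by
  classical
  obtain ⟨e, he⟩ := exists_injective_nat α
  have h1 : ∀ a, ∃ t : Finset β, (↑t : Set β) ⊆ {b | R a b} ∧ t.card = e a + 1 :=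
    fun a => (h a).exists_subset_card_eq (e a + 1)
  choose t ht1 ht2 using h1
  have h2 : ∀ s : Finset α, s.card ≤ (s.biUnion t).card := by
    intro s
    rcases s.eq_empty_or_nonempty with rfl | hs
    · simp
    · obtain ⟨a, ha, hmax⟩ := s.exists_max_image e hs
      calc s.card = (s.image e).card := (Finset.card_image_of_injective s he).symm
        _ ≤ (Finset.range (e a + 1)).card := by
            refine Finset.card_le_card fun i hi => ?_
            obtain ⟨b, hb, rfl⟩ := Finset.mem_image.1 hi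
            exact Finset.mem_range.2 (Nat.lt_succ_of_le (hmax b hb))
        _ = (t a).card := by rw [Finset.card_range, ht2]
        _ ≤ (s.biUnion t).card := Finset.card_le_card (Finset.subset_biUnion_of_mem t ha)
  obtain ⟨f, hf, hf2⟩ := (Finset.all_card_le_biUnion_card_iff_exists_injective t).1 h2
  exact ⟨f, hf, fun a => ht1 a (hf2 a)⟩

/-- minimal strings below `s` whose cylinder misses `K` -/
def Sm (K : Set X) (s : List Bool) : Set (List Bool) :=
  {u | s <+: u ∧ (∀ x ∈ cyl u, x ∉ K) ∧ ∃ x ∈ cyl u.dropLast, x ∈ K}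

variable {K : Set X} {s : List Bool}

theorem Sm_length (hne : K.Nonempty) (hsub : K ⊆ cyl s) {u : List Bool} (hu : u ∈ Sm K s) :
    s.length < u.length := by
  obtain ⟨h1, h2, -⟩ := hu
  rcases h1.length_le.lt_or_eq with h | h
  · exact h
  · exfalso
    have : s = u := h1.eq_of_length h
    obtain ⟨k, hk⟩ := hne
    exact h2 k (this ▸ hsub hk) hk

theorem Sm_exists (hK : IsClosed K) (hne : K.Nonempty) (hsub : K ⊆ cyl s) {x : X}
    (hx : x ∈ cyl s) (hxK : x ∉ K) {m : ℕ} (hm : ∃ k ∈ cyl (pre x m), k ∈ K) :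
    ∃ u ∈ Sm K s, x ∈ cyl u ∧ m < u.length ∧ pre x m <+: u := by
  classical
  have hex : ∃ n, ∀ y ∈ cyl (pre x n), y ∉ K := by
    obtain ⟨n, hn⟩ := exists_cyl_subset hK.isOpen_compl hxK
    exact ⟨n, fun y hy => hn hy⟩
  let n := Nat.find hex
  have hn : ∀ y ∈ cyl (pre x n), y ∉ K := Nat.find_spec hex
  have hmn : ∀ j, (∃ k ∈ cyl (pre x j), k ∈ K) → j < n := by
    intro j ⟨k, hk, hkK⟩
    by_contra hj
    push Not at hj
    exact hn k (cyl_anti (pre_prefix x hj) hk) hkK
  have hsn : s.length < n := by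
    apply hmn
    obtain ⟨k, hk⟩ := hne
    exact ⟨k, by rw [mem_cyl.1 hx]; exact hsub hk, hk⟩
  obtain ⟨n', hn'⟩ : ∃ n', n = n' + 1 := ⟨n - 1, by omega⟩
  refine ⟨pre x n, ⟨?_, hn, ?_⟩, self_mem_cyl x n, ?_, pre_prefix x (hmn m hm).le⟩
  · rw [← mem_cyl.1 hx]; exact pre_prefix x hsn.le
  · rw [hn', pre_dropLast]
    have := Nat.find_min hex (m := n') (by omega)
    push Not at this
    exact this
  · rw [pre_length]; exact hmn m hm

theorem Sm_unique {x : X} {u v : List Bool} (hu : u ∈ Sm K s) (hv : v ∈ Sm K s)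
    (hxu : x ∈ cyl u) (hxv : x ∈ cyl v) : u = v := by
  have key : ∀ u v : List Bool, u ∈ Sm K s → v ∈ Sm K s → u <+: v → u = v := by
    intro u v hu hv h
    rcases h.length_le.lt_or_eq with h' | h'
    · exfalso
      obtain ⟨k, hk, hkK⟩ := hv.2.2
      have : u <+: v.dropLast := by
        rw [List.prefix_iff_eq_take] at h ⊢
        rw [List.dropLast_eq_take, List.take_take, min_eq_left (by omega)]
        exact h
      exact hu.2.1 k (cyl_anti this hk) hkK
    · exact h.eq_of_length h'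
  rcases prefix_or hxu hxv with h | h
  · exact key u v hu hv h
  · exact (key v u hv hu h).symm

/-- data for the gluing theorem -/
structure Good (G : List Bool → List Bool → Set (X × X)) : Prop where
  closed : ∀ s t, IsClosed (G s t)
  ne : ∀ s t, (G s t).Nonempty
  sub : ∀ s t x y, (x, y) ∈ G s t → x ∈ cyl s ∧ y ∈ cyl t
  fn : ∀ s t x y y', (x, y) ∈ G s t → (x, y') ∈ G s t → y = y'
  inj : ∀ s t x x' y, (x, y) ∈ G s t → (x', y) ∈ G s t → x = x'
  nd1 : ∀ s t u, ∃ x ∈ cyl u, ∀ y, (x, y) ∉ G s t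
  nd2 : ∀ s t u, ∃ y ∈ cyl u, ∀ x, (x, y) ∉ G s t

/-- domain -/
def Dm (g : Set (X × X)) : Set X := Prod.fst '' g
/-- range -/
def Rn (g : Set (X × X)) : Set X := Prod.snd '' g

theorem mem_Dm {g : Set (X × X)} {x : X} : x ∈ Dm g ↔ ∃ y, (x, y) ∈ g := by
  simp [Dm]
theorem mem_Rn {g : Set (X × X)} {y : X} : y ∈ Rn g ↔ ∃ x, (x, y) ∈ g := by
  simp [Rn]

/-- closeness of strings along `g` -/
def Cl (g : Set (X × X)) (u v : List Bool) : Prop :=
  ∃ k l, (k, l) ∈ g ∧ pre k (min u.length v.length - 1) = u.take (min u.length v.length - 1) ∧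
    pre l (min u.length v.length - 1) = v.take (min u.length v.length - 1)

theorem infinite_of_unbounded {S : Set (List Bool)} (h : ∀ m, ∃ u ∈ S, m < u.length) :
    S.Infinite := by
  intro hfin
  obtain ⟨m, hm⟩ := (hfin.image List.length).bddAbove
  obtain ⟨u, hu, hlt⟩ := h m
  exact absurd (hm ⟨u, hu, rfl⟩) (by omega)

theorem take_eq_of_prefix {u v : List Bool} {n : ℕ} (h : u <+: v) (hn : n ≤ u.length) :
    v.take n = u.take n := by
  rw [List.prefix_iff_eq_take] at h
  rw [h, List.take_take]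
  congr 1
  have := congrArg List.length h
  rw [List.length_take] at this
  omega

variable {G : List Bool → List Bool → Set (X × X)}

theorem exists_theta (hG : Good G) (s t : List Bool) :
    ∃ θ : List Bool → List Bool, BijOn θ (Sm (Dm (G s t)) s) (Sm (Rn (G s t)) t) ∧
      ∀ u ∈ Sm (Dm (G s t)) s, Cl (G s t) u (θ u) := by
  classical
  set g := G s t with hg
  have hDc : IsClosed (Dm g) := ((hG.closed s t).isCompact.image continuous_fst).isClosed
  have hRc : IsClosed (Rn g) := ((hG.closed s t).isCompact.image continuous_snd).isClosed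
  have hDn : (Dm g).Nonempty := (hG.ne s t).image _
  have hRn : (Rn g).Nonempty := (hG.ne s t).image _
  have hDs : Dm g ⊆ cyl s := by
    intro x hx
    obtain ⟨y, hy⟩ := mem_Dm.1 hx
    exact (hG.sub s t x y hy).1
  have hRs : Rn g ⊆ cyl t := by
    intro y hy
    obtain ⟨x, hx⟩ := mem_Rn.1 hy
    exact (hG.sub s t x y hx).2
  let α := ↥(Sm (Dm g) s)
  let β := ↥(Sm (Rn g) t)
  -- each `u` is close to infinitely many `v`
  have h1 : ∀ u : α, {v : β | Cl g u.1 v.1}.Infinite := by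
    intro u
    have hinf : {v : List Bool | v ∈ Sm (Rn g) t ∧ Cl g u.1 v}.Infinite := by
      apply infinite_of_unbounded
      intro m
      obtain ⟨k, hku, hk⟩ := u.2.2.2
      obtain ⟨l, hl⟩ := mem_Dm.1 hk
      have hlt : l ∈ cyl t := (hG.sub s t k l hl).2
      let m' := max (max m u.1.length) t.length
      obtain ⟨y, hy, hyR⟩ := hG.nd2 s t (pre l m')
      have hy' : pre y m' = pre l m' := mem_cyl_pre.1 hy
      have hyt : y ∈ cyl t := by
        refine cyl_anti ?_ hy
        rw [← mem_cyl_iff_prefix (le_max_right _ _)]; exact hlt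
      obtain ⟨v, hv, hyv, hlen, hpre⟩ := Sm_exists hRc hRn hRs hyt
        (fun h => by obtain ⟨x, hx⟩ := mem_Rn.1 h; exact hyR x hx) (m := m')
        ⟨l, by rw [hy']; exact self_mem_cyl l m', mem_Rn.2 ⟨k, hl⟩⟩
      refine ⟨v, ⟨hv, k, l, hl, ?_, ?_⟩, lt_of_le_of_lt ?_ hlen⟩
      · have hmin : min u.1.length v.length - 1 = u.1.length - 1 := by
          have : u.1.length ≤ m' := le_trans (le_max_right _ _) (le_max_left _ _)
          omega
        rw [hmin]
        have := mem_cyl.1 hku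
        rw [List.length_dropLast, List.dropLast_eq_take] at this
        exact this
      · have hle : min u.1.length v.length - 1 ≤ m' := by
          have : u.1.length ≤ m' := le_trans (le_max_right _ _) (le_max_left _ _)
          omega
        rw [take_eq_of_prefix hpre (by rw [pre_length]; exact hle), hy', pre_take l hle]
      · exact le_trans (le_max_left _ _) (le_max_left _ _)
    intro hfin
    apply hinf
    refine (hfin.image (fun v : β => v.1)).subset ?_
    rintro v ⟨hv, hcl⟩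
    exact ⟨⟨v, hv⟩, hcl, rfl⟩
  have h2 : ∀ v : β, {u : α | Cl g u.1 v.1}.Infinite := by
    intro v
    have hinf : {u : List Bool | u ∈ Sm (Dm g) s ∧ Cl g u v.1}.Infinite := by
      apply infinite_of_unbounded
      intro m
      obtain ⟨l, hlv, hl⟩ := v.2.2.2
      obtain ⟨k, hk⟩ := mem_Rn.1 hl
      have hks : k ∈ cyl s := (hG.sub s t k l hk).1
      let m' := max (max m v.1.length) s.length
      obtain ⟨x, hx, hxR⟩ := hG.nd1 s t (pre k m')
      have hx' : pre x m' = pre k m' := mem_cyl_pre.1 hx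
      have hxs : x ∈ cyl s := by
        refine cyl_anti ?_ hx
        rw [← mem_cyl_iff_prefix (le_max_right _ _)]; exact hks
      obtain ⟨u, hu, hxu, hlen, hpre⟩ := Sm_exists hDc hDn hDs hxs
        (fun h => by obtain ⟨y, hy⟩ := mem_Dm.1 h; exact hxR y hy) (m := m')
        ⟨k, by rw [hx']; exact self_mem_cyl k m', mem_Dm.2 ⟨l, hk⟩⟩
      refine ⟨u, ⟨hu, k, l, hk, ?_, ?_⟩, lt_of_le_of_lt ?_ hlen⟩
      · have hle : min u.length v.1.length - 1 ≤ m' := by
          have : v.1.length ≤ m' := le_trans (le_max_right _ _) (le_max_left _ _)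
          omega
        rw [take_eq_of_prefix hpre (by rw [pre_length]; exact hle), hx', pre_take k hle]
      · have hmin : min u.length v.1.length - 1 = v.1.length - 1 := by
          have : v.1.length ≤ m' := le_trans (le_max_right _ _) (le_max_left _ _)
          omega
        rw [hmin]
        have := mem_cyl.1 hlv
        rw [List.length_dropLast, List.dropLast_eq_take] at this
        exact this
      · exact le_trans (le_max_left _ _) (le_max_left _ _)
    intro hfin
    apply hinf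
    refine (hfin.image (fun u : α => u.1)).subset ?_
    rintro u ⟨hu, hcl⟩
    exact ⟨⟨u, hu⟩, hcl, rfl⟩
  obtain ⟨f, hf, hf'⟩ := greedy (fun (u : α) (v : β) => Cl g u.1 v.1) h1
  obtain ⟨e, he, he'⟩ := greedy (fun (v : β) (u : α) => Cl g u.1 v.1) h2
  obtain ⟨h, hh, hR⟩ := Function.Embedding.schroeder_bernstein_of_rel hf he
    (fun (u : α) (v : β) => Cl g u.1 v.1) hf' he'
  refine ⟨fun u => if hu : u ∈ Sm (Dm g) s then (h ⟨u, hu⟩).1 else [], ⟨?_, ?_, ?_⟩, ?_⟩
  · intro u hu
    simp only [dif_pos hu]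
    exact (h ⟨u, hu⟩).2
  · intro u hu v hv huv
    simp only [dif_pos hu, dif_pos hv] at huv
    have := hh.1 (Subtype.ext huv)
    exact congrArg Subtype.val this
  · intro v hv
    obtain ⟨u, hu⟩ := hh.2 ⟨v, hv⟩
    refine ⟨u.1, u.2, ?_⟩
    simp only [dif_pos u.2]
    exact congrArg Subtype.val hu
  · intro u hu
    simp only [dif_pos hu]
    exact hR ⟨u, hu⟩

/-- finite approximations of the graph -/
def Gam (G : List Bool → List Bool → Set (X × X)) (θ : List Bool → List Bool → List Bool → List Bool) :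
    ℕ → List Bool → List Bool → Set (X × X)
  | 0, s, t => cyl s ×ˢ cyl t
  | n + 1, s, t => G s t ∪ ⋃ u ∈ Sm (Dm (G s t)) s, Gam G θ n u (θ s t u)

section
variable {θ : List Bool → List Bool → List Bool → List Bool}

theorem Gam_sub (hG : Good G)
    (hθ : ∀ s t, BijOn (θ s t) (Sm (Dm (G s t)) s) (Sm (Rn (G s t)) t)) (n : ℕ) :
    ∀ s t x y, (x, y) ∈ Gam G θ n s t → x ∈ cyl s ∧ y ∈ cyl t := by
  induction n with
  | zero => intro s t x y h; exact h
  | succ n ih =>
    intro s t x y h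
    rcases h with h | h
    · exact hG.sub s t x y h
    · obtain ⟨u, hu, h⟩ := mem_iUnion₂.1 h
      obtain ⟨h1, h2⟩ := ih _ _ _ _ h
      exact ⟨cyl_anti hu.1 h1, cyl_anti ((hθ s t).1 hu).1 h2⟩

theorem Gam_anti (hG : Good G)
    (hθ : ∀ s t, BijOn (θ s t) (Sm (Dm (G s t)) s) (Sm (Rn (G s t)) t)) (n : ℕ) :
    ∀ s t, Gam G θ (n + 1) s t ⊆ Gam G θ n s t := by
  induction n with
  | zero =>
    intro s t z hz
    exact Gam_sub hG hθ 1 s t z.1 z.2 hz
  | succ n ih =>
    intro s t z hz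
    rcases hz with h | h
    · exact Or.inl h
    · obtain ⟨u, hu, h⟩ := mem_iUnion₂.1 h
      exact Or.inr (mem_iUnion₂.2 ⟨u, hu, ih _ _ h⟩)

theorem Dm_sub (hG : Good G) (s t : List Bool) : Dm (G s t) ⊆ cyl s := by
  intro x hx
  obtain ⟨y, hy⟩ := mem_Dm.1 hx
  exact (hG.sub s t x y hy).1

theorem Rn_sub (hG : Good G) (s t : List Bool) : Rn (G s t) ⊆ cyl t := by
  intro y hy
  obtain ⟨x, hx⟩ := mem_Rn.1 hy
  exact (hG.sub s t x y hx).2

theorem Dm_closed (hG : Good G) (s t : List Bool) : IsClosed (Dm (G s t)) :=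
  ((hG.closed s t).isCompact.image continuous_fst).isClosed

theorem Rn_closed (hG : Good G) (s t : List Bool) : IsClosed (Rn (G s t)) :=
  ((hG.closed s t).isCompact.image continuous_snd).isClosed

theorem Gam_closed (hG : Good G)
    (hθ : ∀ s t, BijOn (θ s t) (Sm (Dm (G s t)) s) (Sm (Rn (G s t)) t))
    (hcl : ∀ s t, ∀ u ∈ Sm (Dm (G s t)) s, Cl (G s t) u (θ s t u)) (n : ℕ) :
    ∀ s t, IsClosed (Gam G θ n s t) := by
  induction n with
  | zero => intro s t; exact (isClosed_cyl s).prod (isClosed_cyl t)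
  | succ n ih =>
    intro s t
    let N : ℕ → Set (X × X) := fun m =>
      {z | ∃ k l, (k, l) ∈ G s t ∧ pre z.1 m = pre k m ∧ pre z.2 m = pre l m}
    let F : ℕ → Set (List Bool) := fun m =>
      {u | u ∈ Sm (Dm (G s t)) s ∧ (u.length ≤ m + 1 ∨ (θ s t u).length ≤ m + 1)}
    have hfinL : ∀ m : ℕ, {u : List Bool | u.length ≤ m}.Finite := fun m =>
      List.finite_length_le Bool m
    have hF : ∀ m, (F m).Finite := by
      intro m
      have h1 : F m ⊆ {u | u.length ≤ m + 1} ∪
          {u | u ∈ Sm (Dm (G s t)) s ∧ θ s t u ∈ {v : List Bool | v.length ≤ m + 1}} := by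
        rintro u ⟨hu, h | h⟩
        · exact Or.inl h
        · exact Or.inr ⟨hu, h⟩
      refine ((hfinL _).union ?_).subset h1
      refine Set.Finite.of_finite_image ((hfinL (m + 1)).subset ?_)
        (f := θ s t) ((hθ s t).2.1.mono fun u hu => hu.1)
      rintro _ ⟨u, hu, rfl⟩
      exact hu.2
    have hN : ∀ m, IsClosed (N m) := by
      intro m
      have := isClosed_pre₂ (fun a b => ∃ k l, (k, l) ∈ G s t ∧ a = pre k m ∧ b = pre l m) m m
      exact this
    have heq : Gam G θ (n + 1) s t = ⋂ m, (N m ∪ ⋃ u ∈ F m, Gam G θ n u (θ s t u)) := by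
      ext z
      constructor
      · intro hz
        rw [mem_iInter]
        intro m
        rcases hz with h | h
        · exact Or.inl ⟨z.1, z.2, h, rfl, rfl⟩
        · obtain ⟨u, hu, h⟩ := mem_iUnion₂.1 h
          by_cases hum : u.length ≤ m + 1 ∨ (θ s t u).length ≤ m + 1
          · exact Or.inr (mem_iUnion₂.2 ⟨u, ⟨hu, hum⟩, h⟩)
          · left
            push Not at hum
            obtain ⟨k, l, hkl, h1, h2⟩ := hcl s t u hu
            obtain ⟨hzu, hzv⟩ := Gam_sub hG hθ n _ _ z.1 z.2 h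
            set j := min u.length (θ s t u).length - 1 with hj
            have hjm : m ≤ j := by omega
            have h3 : pre z.1 j = u.take j := by
              rw [← mem_cyl.1 hzu, pre_take]
              omega
            have h4 : pre z.2 j = (θ s t u).take j := by
              rw [← mem_cyl.1 hzv, pre_take]
              omega
            refine ⟨k, l, hkl, ?_, ?_⟩
            · rw [← pre_take z.1 hjm, ← pre_take k hjm, h3, h1]
            · rw [← pre_take z.2 hjm, ← pre_take l hjm, h4, h2]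
      · intro hz
        rw [mem_iInter] at hz
        by_cases hex : ∃ m, z ∈ ⋃ u ∈ F m, Gam G θ n u (θ s t u)
        · obtain ⟨m, hm⟩ := hex
          obtain ⟨u, hu, h⟩ := mem_iUnion₂.1 hm
          exact Or.inr (mem_iUnion₂.2 ⟨u, hu.1, h⟩)
        · push Not at hex
          left
          rw [← (hG.closed s t).closure_eq, mem_closure_iff']
          intro m
          rcases hz m with ⟨k, l, hkl, h1, h2⟩ | h
          · exact ⟨(k, l), hkl, h1.symm, h2.symm⟩
          · exact absurd h (hex m)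
    rw [heq]
    refine isClosed_iInter fun m => (hN m).union ?_
    exact (hF m).isClosed_biUnion fun u _ => ih _ _

theorem Gam_left (hG : Good G) (n : ℕ) :
    ∀ s t, (∀ s t, BijOn (θ s t) (Sm (Dm (G s t)) s) (Sm (Rn (G s t)) t)) →
      ∀ x ∈ cyl s, ∃ y, (x, y) ∈ Gam G θ n s t := by
  induction n with
  | zero =>
    intro s t _ x hx
    obtain ⟨y, hy⟩ := cyl_nonempty t
    exact ⟨y, hx, hy⟩
  | succ n ih =>
    intro s t hθ x hx
    by_cases hxD : x ∈ Dm (G s t)
    · obtain ⟨y, hy⟩ := mem_Dm.1 hxD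
      exact ⟨y, Or.inl hy⟩
    · obtain ⟨k, hk⟩ := (hG.ne s t).image Prod.fst
      obtain ⟨u, hu, hxu, -, -⟩ := Sm_exists (Dm_closed hG s t) ⟨k, hk⟩ (Dm_sub hG s t) hx hxD
        (m := s.length) ⟨k, by rw [mem_cyl.1 hx]; exact Dm_sub hG s t hk, hk⟩
      obtain ⟨y, hy⟩ := ih u (θ s t u) hθ x hxu
      exact ⟨y, Or.inr (mem_iUnion₂.2 ⟨u, hu, hy⟩)⟩

theorem Gam_right (hG : Good G) (n : ℕ) :
    ∀ s t, (∀ s t, BijOn (θ s t) (Sm (Dm (G s t)) s) (Sm (Rn (G s t)) t)) →
      ∀ y ∈ cyl t, ∃ x, (x, y) ∈ Gam G θ n s t := by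
  induction n with
  | zero =>
    intro s t _ y hy
    obtain ⟨x, hx⟩ := cyl_nonempty s
    exact ⟨x, hx, hy⟩
  | succ n ih =>
    intro s t hθ y hy
    by_cases hyR : y ∈ Rn (G s t)
    · obtain ⟨x, hx⟩ := mem_Rn.1 hyR
      exact ⟨x, Or.inl hx⟩
    · obtain ⟨k, hk⟩ := (hG.ne s t).image Prod.snd
      obtain ⟨v, hv, hyv, -, -⟩ := Sm_exists (Rn_closed hG s t) ⟨k, hk⟩ (Rn_sub hG s t) hy hyR
        (m := t.length) ⟨k, by rw [mem_cyl.1 hy]; exact Rn_sub hG s t hk, hk⟩
      obtain ⟨u, hu, rfl⟩ := (hθ s t).2.2 hv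
      obtain ⟨x, hx⟩ := ih u (θ s t u) hθ y hyv
      exact ⟨x, Or.inr (mem_iUnion₂.2 ⟨u, hu, hx⟩)⟩

theorem Gam_fn (hG : Good G)
    (hθ : ∀ s t, BijOn (θ s t) (Sm (Dm (G s t)) s) (Sm (Rn (G s t)) t)) (n : ℕ) :
    ∀ s t x y y', (x, y) ∈ Gam G θ n s t → (x, y') ∈ Gam G θ n s t →
      pre y (t.length + n) = pre y' (t.length + n) := by
  induction n with
  | zero =>
    intro s t x y y' h h'
    rw [add_zero, mem_cyl.1 h.2, mem_cyl.1 h'.2]
  | succ n ih =>
    intro s t x y y' h h'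
    rcases h with h | h
    · rcases h' with h' | h'
      · rw [hG.fn s t x y y' h h']
      · obtain ⟨u, hu, h'⟩ := mem_iUnion₂.1 h'
        exact absurd (mem_Dm.2 ⟨y, h⟩) (hu.2.1 x (Gam_sub hG hθ n _ _ _ _ h').1)
    · obtain ⟨u, hu, h⟩ := mem_iUnion₂.1 h
      have hxu := (Gam_sub hG hθ n _ _ _ _ h).1
      rcases h' with h' | h'
      · exact absurd (mem_Dm.2 ⟨y', h'⟩) (hu.2.1 x hxu)
      · obtain ⟨u', hu', h'⟩ := mem_iUnion₂.1 h'
        have hxu' := (Gam_sub hG hθ n _ _ _ _ h').1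
        have := Sm_unique hu hu' hxu hxu'
        subst this
        have h1 := ih _ _ _ _ _ h h'
        have hlen : t.length < (θ s t u).length :=
          Sm_length ((hG.ne s t).image _) (Rn_sub hG s t) ((hθ s t).1 hu)
        rw [← pre_take y (show t.length + (n + 1) ≤ (θ s t u).length + n by omega),
          ← pre_take y' (show t.length + (n + 1) ≤ (θ s t u).length + n by omega), h1]

theorem Gam_inj (hG : Good G)
    (hθ : ∀ s t, BijOn (θ s t) (Sm (Dm (G s t)) s) (Sm (Rn (G s t)) t)) (n : ℕ) :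
    ∀ s t x x' y, (x, y) ∈ Gam G θ n s t → (x', y) ∈ Gam G θ n s t →
      pre x (s.length + n) = pre x' (s.length + n) := by
  induction n with
  | zero =>
    intro s t x x' y h h'
    rw [add_zero, mem_cyl.1 h.1, mem_cyl.1 h'.1]
  | succ n ih =>
    intro s t x x' y h h'
    rcases h with h | h
    · rcases h' with h' | h'
      · rw [hG.inj s t x x' y h h']
      · obtain ⟨u, hu, h'⟩ := mem_iUnion₂.1 h'
        exact absurd (mem_Rn.2 ⟨x, h⟩) (((hθ s t).1 hu).2.1 y (Gam_sub hG hθ n _ _ _ _ h').2)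
    · obtain ⟨u, hu, h⟩ := mem_iUnion₂.1 h
      have hyu := (Gam_sub hG hθ n _ _ _ _ h).2
      rcases h' with h' | h'
      · exact absurd (mem_Rn.2 ⟨x', h'⟩) (((hθ s t).1 hu).2.1 y hyu)
      · obtain ⟨u', hu', h'⟩ := mem_iUnion₂.1 h'
        have hyu' := (Gam_sub hG hθ n _ _ _ _ h').2
        have h2 := Sm_unique ((hθ s t).1 hu) ((hθ s t).1 hu') hyu hyu'
        have := (hθ s t).2.1 hu hu' h2
        subst this
        have h1 := ih _ _ _ _ _ h h'
        have hlen : s.length < u.length :=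
          Sm_length ((hG.ne s t).image _) (Dm_sub hG s t) hu
        rw [← pre_take x (show s.length + (n + 1) ≤ u.length + n by omega),
          ← pre_take x' (show s.length + (n + 1) ≤ u.length + n by omega), h1]

theorem capture_left (hG : Good G)
    (hθ : ∀ s t, BijOn (θ s t) (Sm (Dm (G s t)) s) (Sm (Rn (G s t)) t)) {x y : X} {ℓ : ℕ}
    (hℓ : ∀ s t, ℓ ≤ s.length → x ∈ cyl s → x ∈ Dm (G s t)) (d : ℕ) :
    ∀ s t, ℓ ≤ s.length + d → (∀ n, (x, y) ∈ Gam G θ n s t) → ∃ s' t', (x, y) ∈ G s' t' := by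
  induction d with
  | zero =>
    intro s t hd h
    have hxs := (Gam_sub hG hθ 0 _ _ _ _ (h 0)).1
    have hx := hℓ s t (by omega) hxs
    rcases h 1 with h1 | h1
    · exact ⟨s, t, h1⟩
    · obtain ⟨u, hu, h1⟩ := mem_iUnion₂.1 h1
      exact absurd hx (hu.2.1 x (Gam_sub hG hθ 0 _ _ _ _ h1).1)
  | succ d ih =>
    intro s t hd h
    rcases h 1 with h1 | h1
    · exact ⟨s, t, h1⟩
    · obtain ⟨u, hu, h1⟩ := mem_iUnion₂.1 h1
      have hxu := (Gam_sub hG hθ 0 _ _ _ _ h1).1
      have hlen : s.length < u.length :=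
        Sm_length ((hG.ne s t).image _) (Dm_sub hG s t) hu
      refine ih u (θ s t u) (by omega) fun n => ?_
      rcases h (n + 1) with h2 | h2
      · exact absurd (mem_Dm.2 ⟨y, h2⟩) (hu.2.1 x hxu)
      · obtain ⟨u', hu', h2⟩ := mem_iUnion₂.1 h2
        have := Sm_unique hu hu' hxu (Gam_sub hG hθ n _ _ _ _ h2).1
        subst this
        exact h2

theorem capture_right (hG : Good G)
    (hθ : ∀ s t, BijOn (θ s t) (Sm (Dm (G s t)) s) (Sm (Rn (G s t)) t)) {x y : X} {ℓ : ℕ}
    (hℓ : ∀ s t, ℓ ≤ t.length → y ∈ cyl t → y ∈ Rn (G s t)) (d : ℕ) :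
    ∀ s t, ℓ ≤ t.length + d → (∀ n, (x, y) ∈ Gam G θ n s t) → ∃ s' t', (x, y) ∈ G s' t' := by
  induction d with
  | zero =>
    intro s t hd h
    have hyt := (Gam_sub hG hθ 0 _ _ _ _ (h 0)).2
    have hy := hℓ s t (by omega) hyt
    rcases h 1 with h1 | h1
    · exact ⟨s, t, h1⟩
    · obtain ⟨u, hu, h1⟩ := mem_iUnion₂.1 h1
      exact absurd hy (((hθ s t).1 hu).2.1 y (Gam_sub hG hθ 0 _ _ _ _ h1).2)
  | succ d ih =>
    intro s t hd h
    rcases h 1 with h1 | h1
    · exact ⟨s, t, h1⟩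
    · obtain ⟨u, hu, h1⟩ := mem_iUnion₂.1 h1
      have hyu := (Gam_sub hG hθ 0 _ _ _ _ h1).2
      have hxu := (Gam_sub hG hθ 0 _ _ _ _ h1).1
      have hlen : t.length < (θ s t u).length :=
        Sm_length ((hG.ne s t).image _) (Rn_sub hG s t) ((hθ s t).1 hu)
      refine ih u (θ s t u) (by omega) fun n => ?_
      rcases h (n + 1) with h2 | h2
      · exact absurd (mem_Dm.2 ⟨y, h2⟩) (hu.2.1 x hxu)
      · obtain ⟨u', hu', h2⟩ := mem_iUnion₂.1 h2
        have := Sm_unique hu hu' hxu (Gam_sub hG hθ n _ _ _ _ h2).1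
        subst this
        exact h2

end

/-- the gluing theorem -/
theorem glue (hG : Good G) : ∃ h : X ≃ₜ X,
    (∀ x ℓ, (∀ s t, ℓ ≤ s.length → x ∈ cyl s → x ∈ Dm (G s t)) →
      ∃ s t, (x, h x) ∈ G s t) ∧
    (∀ x ℓ, (∀ s t, ℓ ≤ t.length → h x ∈ cyl t → h x ∈ Rn (G s t)) →
      ∃ s t, (x, h x) ∈ G s t) := by
  choose θ hθ hcl using exists_theta hG
  let Γ : Set (X × X) := ⋂ n, Gam G θ n [] []
  have hΓc : IsClosed Γ := isClosed_iInter fun n => Gam_closed hG hθ hcl n [] []
  have hanti : Antitone fun n => Gam G θ n [] [] :=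
    antitone_nat_of_succ_le fun n => Gam_anti hG hθ n [] []
  have hcomp : ∀ (V : Set (X × X)), IsClosed V →
      (∀ n, (Gam G θ n [] [] ∩ V).Nonempty) → (Γ ∩ V).Nonempty := by
    intro V hV hne
    have h1 := IsCompact.nonempty_iInter_of_sequence_nonempty_isCompact_isClosed
      (fun n => Gam G θ n [] [] ∩ V)
      (fun n => inter_subset_inter_left _ (Gam_anti hG hθ n [] [])) hne
      (((Gam_closed hG hθ hcl 0 [] []).inter hV).isCompact)
      (fun n => (Gam_closed hG hθ hcl n [] []).inter hV)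
    rw [← iInter_inter] at h1
    exact h1
  have hleft : ∀ x, ∃ y, (x, y) ∈ Γ := by
    intro x
    obtain ⟨z, hz, hz'⟩ := hcomp {z | z.1 = x}
      (isClosed_eq continuous_fst continuous_const) (fun n => by
        obtain ⟨y, hy⟩ := Gam_left hG n [] [] hθ x (by rw [cyl_nil]; trivial)
        exact ⟨(x, y), hy, rfl⟩)
    have hz'' : z.1 = x := hz'
    exact ⟨z.2, by rw [← hz'']; exact hz⟩
  have hright : ∀ y, ∃ x, (x, y) ∈ Γ := by
    intro y
    obtain ⟨z, hz, hz'⟩ := hcomp {z | z.2 = y}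
      (isClosed_eq continuous_snd continuous_const) (fun n => by
        obtain ⟨x, hx⟩ := Gam_right hG n [] [] hθ y (by rw [cyl_nil]; trivial)
        exact ⟨(x, y), hx, rfl⟩)
    have hz'' : z.2 = y := hz'
    exact ⟨z.1, by rw [← hz'']; exact hz⟩
  have hfn : ∀ x y y', (x, y) ∈ Γ → (x, y') ∈ Γ → y = y' := by
    intro x y y' h h'
    refine eq_of_pre fun n => ?_
    have := Gam_fn hG hθ n [] [] x y y' (mem_iInter.1 h n) (mem_iInter.1 h' n)
    simpa using this
  have hinj : ∀ x x' y, (x, y) ∈ Γ → (x', y) ∈ Γ → x = x' := by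
    intro x x' y h h'
    refine eq_of_pre fun n => ?_
    have := Gam_inj hG hθ n [] [] x x' y (mem_iInter.1 h n) (mem_iInter.1 h' n)
    simpa using this
  choose f hf using hleft
  have hfbij : Function.Bijective f := by
    constructor
    · intro x x' hxx
      exact hinj x x' (f x) (hf x) (by rw [hxx]; exact hf x')
    · intro y
      obtain ⟨x, hx⟩ := hright y
      exact ⟨x, hfn x _ _ (hf x) hx⟩
  have hfc : Continuous f := by
    rw [continuous_iff_isClosed]
    intro V hV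
    have : f ⁻¹' V = Prod.fst '' (Γ ∩ {z | z.2 ∈ V}) := by
      ext x
      constructor
      · intro hx
        exact ⟨(x, f x), ⟨hf x, hx⟩, rfl⟩
      · rintro ⟨⟨a, b⟩, ⟨hz, hzV⟩, rfl⟩
        have : f a = b := hfn a _ _ (hf a) hz
        show f a ∈ V
        rw [this]; exact hzV
    rw [this]
    exact ((hΓc.inter (hV.preimage continuous_snd)).isCompact.image continuous_fst).isClosed
  let e : X ≃ X := Equiv.ofBijective f hfbij
  let h : X ≃ₜ X := Continuous.homeoOfEquivCompactToT2 (f := e) hfc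
  have hhf : ∀ x, h x = f x := fun x => rfl
  refine ⟨h, ?_, ?_⟩
  · intro x ℓ hℓ
    exact capture_left hG hθ hℓ ℓ [] [] (by simp) fun n => mem_iInter.1 (hf x) n
  · intro x ℓ hℓ
    exact capture_right hG hθ hℓ ℓ [] [] (by simp) fun n => mem_iInter.1 (hf x) n

end Pool.Agent.Lib.MP_ddd032_lc
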