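import Pool.Agent.Lib.MP_ddd032_lc.Defs
import Pool.Agent.Lib.MP_ddd032_lc.Rel

set_option autoImplicit false

/-!
If all pieces of two sets of size below the unbounding number are homeomorphic, then the two
sets are conjugate by a homeomorphism of Cantor space.
-/

namespace Pool.Agent.Lib.MP_ddd032_lc

open Cardinal Set Filter Topology

theorem bounded_of_lt {F : Set (ℕ → ℕ)} (h : #F < bNum) :
    ∃ g : ℕ → ℕ, ∀ f ∈ F, ∀ᶠ n in atTop, f n ≤ g n := by
  by_contra hcon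
  exact absurd (csInf_le' (s := {c | ∃ F : Set (ℕ → ℕ), #F = c ∧
    ¬ ∃ g : ℕ → ℕ, ∀ f ∈ F, ∀ᶠ n in atTop, f n ≤ g n}) ⟨F, rfl, hcon⟩) (not_le.2 h)

theorem bounded_of_lt' {α : Type} (h : #α < bNum) (f : α → ℕ → ℕ) :
    ∃ g : ℕ → ℕ, ∀ a, ∃ k, ∀ n, f a n ≤ g n + k := by
  obtain ⟨g, hg⟩ := bounded_of_lt (F := range f) (lt_of_le_of_lt Cardinal.mk_range_le h)
  refine ⟨g, fun a => ?_⟩
  obtain ⟨N, hN⟩ := eventually_atTop.1 (hg (f a) ⟨a, rfl⟩)
  refine ⟨∑ i ∈ Finset.range N, f a i, fun n => ?_⟩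
  by_cases hn : N ≤ n
  · exact le_trans (hN n hn) (Nat.le_add_right _ _)
  · have : f a n ≤ ∑ i ∈ Finset.range N, f a i :=
      Finset.single_le_sum (f := f a) (fun _ _ => Nat.zero_le _)
        (Finset.mem_range.2 (by omega))
    omega

theorem pre_mono_eq {x y : X} {m n : ℕ} (h : m ≤ n) (he : pre x n = pre y n) :
    pre x m = pre y m := by
  rw [← pre_take x h, ← pre_take y h, he]

section local_homeo

variable {A B : Set X} {s t : List Bool} (e : ↥(A ∩ cyl s) ≃ₜ ↥(B ∩ cyl t)) (d d' : ℕ → X)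

/-- `m` is a modulus at `a` for precision `n` -/
def Mod (a : ↥(A ∩ cyl s)) (n m : ℕ) : Prop :=
  (∀ a' : ↥(A ∩ cyl s), pre a'.1 m = pre a.1 m → pre (e a').1 n = pre (e a).1 n) ∧
  (∀ b' : ↥(B ∩ cyl t), pre b'.1 m = pre (e a).1 m → pre (e.symm b').1 n = pre a.1 n) ∧
  pre (d n) m ≠ pre a.1 m ∧ pre (d' n) m ≠ pre (e a).1 m

theorem exists_pre_ne {x y : X} (h : x ≠ y) : ∃ m, pre x m ≠ pre y m := by
  by_contra hcon
  push Not at hcon
  exact h (eq_of_pre hcon)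

theorem exists_cont_mod {Y Z : Set X} (f : Y → Z) (hf : Continuous f) (a : Y) (n : ℕ) :
    ∃ m, ∀ a' : Y, pre a'.1 m = pre a.1 m → pre (f a').1 n = pre (f a).1 n := by
  have h1 : IsOpen {a' : Y | pre (f a').1 n = pre (f a).1 n} :=
    (isOpen_pre (fun s => s = pre (f a).1 n) n).preimage (continuous_subtype_val.comp hf)
  obtain ⟨U, hU, hUe⟩ := isOpen_induced_iff.1 h1
  have haU : a.1 ∈ U := by
    have : a ∈ Subtype.val ⁻¹' U := by rw [hUe]; rfl
    exact this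
  obtain ⟨m, hm⟩ := exists_cyl_subset hU haU
  refine ⟨m, fun a' ha' => ?_⟩
  have : a' ∈ Subtype.val ⁻¹' U := hm (mem_cyl_pre.2 ha')
  rw [hUe] at this
  exact this

theorem exists_mod (hd : ∀ n, d n ∉ A) (hd' : ∀ n, d' n ∉ B) (a : ↥(A ∩ cyl s)) (n : ℕ) :
    ∃ m, Mod e d d' a n m := by
  obtain ⟨m1, h1⟩ := exists_cont_mod e e.continuous a n
  obtain ⟨m2, h2⟩ := exists_cont_mod e.symm e.symm.continuous (e a) n
  obtain ⟨m3, h3⟩ := exists_pre_ne (x := d n) (y := a.1) (fun h => hd n (h ▸ a.2.1))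
  obtain ⟨m4, h4⟩ := exists_pre_ne (x := d' n) (y := (e a).1) (fun h => hd' n (h ▸ (e a).2.1))
  refine ⟨max (max m1 m2) (max m3 m4), ?_, ?_, ?_, ?_⟩
  · intro a' ha'
    exact h1 a' (pre_mono_eq (le_trans (le_max_left _ _) (le_max_left _ _)) ha')
  · intro b' hb'
    have := h2 b' (pre_mono_eq (le_trans (le_max_right _ _) (le_max_left _ _)) hb')
    rw [Homeomorph.symm_apply_apply] at this
    exact this
  · exact fun h => h3 (pre_mono_eq (le_trans (le_max_left _ _) (le_max_right _ _)) h)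
  · exact fun h => h4 (pre_mono_eq (le_trans (le_max_right _ _) (le_max_right _ _)) h)

theorem Mod.mono {a : ↥(A ∩ cyl s)} {n m m' : ℕ} (h : Mod e d d' a n m) (hm : m ≤ m') :
    Mod e d d' a n m' :=
  ⟨fun a' ha' => h.1 a' (pre_mono_eq hm ha'), fun b' hb' => h.2.1 b' (pre_mono_eq hm hb'),
    fun h' => h.2.2.1 (pre_mono_eq hm h'), fun h' => h.2.2.2 (pre_mono_eq hm h')⟩

/-- the part of the graph with modulus `M` -/
def Gr (M : ℕ → ℕ) : Set (X × X) :=
  {z | ∃ a : ↥(A ∩ cyl s), (∀ n, Mod e d d' a n (M n)) ∧ z = (a.1, (e a).1)}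

variable {e d d'} {M : ℕ → ℕ}

theorem Gr_fn {z w : X × X} (hz : z ∈ closure (Gr e d d' M)) (hw : w ∈ closure (Gr e d d' M))
    {n : ℕ} (h : pre z.1 (M n) = pre w.1 (M n)) : pre z.2 n = pre w.2 n := by
  obtain ⟨_, ⟨a, ha, rfl⟩, h1, h2⟩ := mem_closure_iff'.1 hz (max (M n) n)
  obtain ⟨_, ⟨a', ha', rfl⟩, h1', h2'⟩ := mem_closure_iff'.1 hw (max (M n) n)
  have e1 := pre_mono_eq (le_max_left (M n) n) h1
  have e2 := pre_mono_eq (le_max_right (M n) n) h2
  have e1' := pre_mono_eq (le_max_left (M n) n) h1'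
  have e2' := pre_mono_eq (le_max_right (M n) n) h2'
  have := (ha n).1 a' (by rw [e1', ← h, ← e1])
  rw [← e2, ← e2', this]

theorem Gr_inj {z w : X × X} (hz : z ∈ closure (Gr e d d' M)) (hw : w ∈ closure (Gr e d d' M))
    {n : ℕ} (h : pre z.2 (M n) = pre w.2 (M n)) : pre z.1 n = pre w.1 n := by
  obtain ⟨_, ⟨a, ha, rfl⟩, h1, h2⟩ := mem_closure_iff'.1 hz (max (M n) n)
  obtain ⟨_, ⟨a', ha', rfl⟩, h1', h2'⟩ := mem_closure_iff'.1 hw (max (M n) n)
  have e1 := pre_mono_eq (le_max_right (M n) n) h1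
  have e2 := pre_mono_eq (le_max_left (M n) n) h2
  have e1' := pre_mono_eq (le_max_right (M n) n) h1'
  have e2' := pre_mono_eq (le_max_left (M n) n) h2'
  have := (ha n).2.1 (e a') (by rw [e2', ← h, ← e2])
  rw [Homeomorph.symm_apply_apply] at this
  rw [← e1, ← e1', this]

theorem Gr_d {z : X × X} (hz : z ∈ closure (Gr e d d' M)) (n : ℕ) : z.1 ≠ d n ∧ z.2 ≠ d' n := by
  obtain ⟨_, ⟨a, ha, rfl⟩, h1, h2⟩ := mem_closure_iff'.1 hz (M n)
  constructor
  · intro h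
    rw [h] at h1
    exact (ha n).2.2.1 h1.symm
  · intro h
    rw [h] at h2
    exact (ha n).2.2.2 h2.symm

theorem Gr_A (hd : ∀ n, d n ∉ A) (hd' : ∀ n, d' n ∉ B)
    {z : X × X} (hz : z ∈ closure (Gr e d d' M)) (hs : z.1 ∈ cyl s) (hA : z.1 ∈ A) :
    z.2 ∈ B := by
  let a₀ : ↥(A ∩ cyl s) := ⟨z.1, hA, hs⟩
  have : z.2 = (e a₀).1 := by
    refine eq_of_pre fun n => ?_
    obtain ⟨m, hm⟩ := exists_mod e d d' hd hd' a₀ n
    obtain ⟨_, ⟨a, -, rfl⟩, h1, h2⟩ := mem_closure_iff'.1 hz (max m n)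
    have := hm.1 a (pre_mono_eq (le_max_left m n) h1)
    rw [← this]
    exact (pre_mono_eq (le_max_right m n) h2).symm
  rw [this]
  exact (e a₀).2.1

theorem Gr_B (hd : ∀ n, d n ∉ A) (hd' : ∀ n, d' n ∉ B)
    {z : X × X} (hz : z ∈ closure (Gr e d d' M)) (ht : z.2 ∈ cyl t) (hB : z.2 ∈ B) :
    z.1 ∈ A := by
  let b₀ : ↥(B ∩ cyl t) := ⟨z.2, hB, ht⟩
  have : z.1 = (e.symm b₀).1 := by
    refine eq_of_pre fun n => ?_
    obtain ⟨m, hm⟩ := exists_mod e d d' hd hd' (e.symm b₀) n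
    obtain ⟨_, ⟨a, -, rfl⟩, h1, h2⟩ := mem_closure_iff'.1 hz (max m n)
    have := hm.2.1 (e a) (by
      rw [Homeomorph.apply_symm_apply]
      exact pre_mono_eq (le_max_left m n) h2)
    rw [Homeomorph.symm_apply_apply] at this
    rw [← this]
    exact (pre_mono_eq (le_max_right m n) h1).symm
  rw [this]
  exact (e.symm b₀).2.1

theorem Gr_sub {z : X × X} (hz : z ∈ closure (Gr e d d' M)) : z.1 ∈ cyl s ∧ z.2 ∈ cyl t := by
  have h : closure (Gr e d d' M) ⊆ cyl s ×ˢ cyl t := by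
    refine closure_minimal ?_ ((isClosed_cyl s).prod (isClosed_cyl t))
    rintro _ ⟨a, -, rfl⟩
    exact ⟨a.2.2, (e a).2.2⟩
  exact h hz

end local_homeo

/-- first element of the sequence `d` in a cylinder -/
theorem exists_first (d : ℕ → X) (hd : DenseRange d) :
    ∃ f : List Bool → X, (∀ s, f s ∈ cyl s) ∧ (∀ s, ∃ n, f s = d n) ∧
      ∀ n, ∃ ℓ, ∀ s : List Bool, ℓ ≤ s.length → d n ∈ cyl s → f s = d n := by
  classical
  have hex : ∀ s, ∃ n, d n ∈ cyl s := by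
    intro s
    obtain ⟨x, hx, n, rfl⟩ := hd.inter_open_nonempty (cyl s) (isOpen_cyl s) (cyl_nonempty s)
    exact ⟨n, hx⟩
  refine ⟨fun s => d (Nat.find (hex s)), fun s => Nat.find_spec (hex s), fun s => ⟨_, rfl⟩, ?_⟩
  intro n
  have h1 : ∀ m, ∃ ℓ, d m ≠ d n → pre (d m) ℓ ≠ pre (d n) ℓ := by
    intro m
    by_cases h : d m = d n
    · exact ⟨0, fun h' => absurd h h'⟩
    · obtain ⟨ℓ, hℓ⟩ := exists_pre_ne h
      exact ⟨ℓ, fun _ => hℓ⟩
  choose L hL using h1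
  refine ⟨(Finset.range n).sup L, fun s hs hn => ?_⟩
  by_contra hne
  have hle : Nat.find (hex s) ≤ n := Nat.find_le hn
  have hlt : Nat.find (hex s) < n := by
    rcases hle.lt_or_eq with h | h
    · exact h
    · exact absurd (congrArg d h) hne
  have h2 := hL _ hne
  have h3 : L (Nat.find (hex s)) ≤ s.length :=
    le_trans (Finset.le_sup (f := L) (Finset.mem_range.2 hlt)) hs
  have h4 := Nat.find_spec (hex s)
  rw [mem_cyl] at h4 hn
  exact h2 (pre_mono_eq h3 (by rw [h4, hn]))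

theorem two_points {d : ℕ → X} (hd : DenseRange d) (u : List Bool) (x₀ : X) :
    ∃ n, d n ∈ cyl u ∧ d n ≠ x₀ := by
  have h : ∀ b : Bool, ∃ n, d n ∈ cyl (u ++ [b]) := by
    intro b
    obtain ⟨x, hx, n, rfl⟩ := hd.inter_open_nonempty (cyl (u ++ [b])) (isOpen_cyl _)
      (cyl_nonempty _)
    exact ⟨n, hx⟩
  obtain ⟨n, hn⟩ := h (!(x₀ u.length))
  refine ⟨n, cyl_anti (List.prefix_append _ _) hn, fun heq => ?_⟩
  rw [heq, mem_cyl] at hn
  have h2 : (pre x₀ (u ++ [!(x₀ u.length)]).length)[u.length]? =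
      (u ++ [!(x₀ u.length)])[u.length]? := by rw [hn]
  simp [pre] at h2

theorem exists_homeo {A B : Set X} (hA : #A < bNum) (hB : #B < bNum)
    (hloc : ∀ s t, Nonempty (↥(A ∩ cyl s) ≃ₜ ↥(B ∩ cyl t)))
    (d d' : ℕ → X) (hdd : DenseRange d) (hdd' : DenseRange d')
    (hd : ∀ n, d n ∉ A) (hd' : ∀ n, d' n ∉ B) :
    ∃ h : X ≃ₜ X, h '' A = B ∧ h '' (range d) = range d' := by
  classical
  have e : ∀ s t, ↥(A ∩ cyl s) ≃ₜ ↥(B ∩ cyl t) := fun s t => (hloc s t).some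
  have hAs : ∀ s, #(↥(A ∩ cyl s)) < bNum := fun s =>
    lt_of_le_of_lt (Cardinal.mk_le_mk_of_subset inter_subset_left) hA
  choose md hmd using fun s t => exists_mod (e s t) d d' hd hd'
  have hMex : ∀ s t, ∃ (M : ℕ → ℕ) (kk : ↥(A ∩ cyl s) → ℕ), ∀ a n, md s t a n ≤ M n + kk a := by
    intro s t
    obtain ⟨g, hg⟩ := bounded_of_lt' (hAs s) (md s t)
    choose k hk using hg
    exact ⟨g, k, hk⟩
  choose M kk hM using hMex
  -- domination over pairs
  obtain ⟨N₁, hN₁⟩ := bounded_of_lt (F := range fun (a : A) (c : ℕ) =>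
      (Encodable.decode (α := List Bool × List Bool) c).elim 0 fun p =>
        if h : a.1 ∈ cyl p.1 then kk p.1 p.2 ⟨a.1, a.2, h⟩ else 0)
    (lt_of_le_of_lt Cardinal.mk_range_le hA)
  obtain ⟨N₂, hN₂⟩ := bounded_of_lt (F := range fun (b : B) (c : ℕ) =>
      (Encodable.decode (α := List Bool × List Bool) c).elim 0 fun p =>
        if h : b.1 ∈ cyl p.2 then kk p.1 p.2 ((e p.1 p.2).symm ⟨b.1, b.2, h⟩) else 0)
    (lt_of_le_of_lt Cardinal.mk_range_le hB)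
  let NN : List Bool → List Bool → ℕ := fun s t =>
    N₁ (Encodable.encode (s, t)) + N₂ (Encodable.encode (s, t))
  obtain ⟨f, hf1, hf2, hf3⟩ := exists_first d hdd
  obtain ⟨f', hf1', hf2', hf3'⟩ := exists_first d' hdd'
  let Cs : List Bool → List Bool → Set (X × X) := fun s t =>
    closure (Gr (e s t) d d' (fun n => M s t n + NN s t))
  let G : List Bool → List Bool → Set (X × X) := fun s t => Cs s t ∪ {(f s, f' t)}
  have hCd : ∀ s t z, z ∈ Cs s t → (∀ n, z.1 ≠ d n) ∧ ∀ n, z.2 ≠ d' n := fun s t z hz =>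
    ⟨fun n => (Gr_d hz n).1, fun n => (Gr_d hz n).2⟩
  have hCf : ∀ s t z, z ∈ Cs s t → z.1 ≠ f s ∧ z.2 ≠ f' t := by
    intro s t z hz
    obtain ⟨n, hn⟩ := hf2 s
    obtain ⟨n', hn'⟩ := hf2' t
    rw [hn, hn']
    exact ⟨(hCd s t z hz).1 n, (hCd s t z hz).2 n'⟩
  have hG : Good G := by
    refine ⟨?_, ?_, ?_, ?_, ?_, ?_, ?_⟩
    · intro s t; exact isClosed_closure.union isClosed_singleton
    · intro s t; exact ⟨_, Or.inr rfl⟩
    · rintro s t x y (h | h)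
      · exact Gr_sub h
      · have := Prod.mk.inj h
        rw [this.1, this.2]
        exact ⟨hf1 s, hf1' t⟩
    · rintro s t x y y' (h | h) (h' | h')
      · refine eq_of_pre fun n => ?_
        exact Gr_fn h h' (n := n) rfl
      · exact absurd (Prod.mk.inj h').1 (hCf s t _ h).1
      · exact absurd (Prod.mk.inj h).1 (hCf s t _ h').1
      · rw [(Prod.mk.inj h).2, (Prod.mk.inj h').2]
    · rintro s t x x' y (h | h) (h' | h')
      · refine eq_of_pre fun n => ?_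
        exact Gr_inj h h' (n := n) rfl
      · exact absurd (Prod.mk.inj h').2 (hCf s t _ h).2
      · exact absurd (Prod.mk.inj h).2 (hCf s t _ h').2
      · rw [(Prod.mk.inj h).1, (Prod.mk.inj h').1]
    · intro s t u
      obtain ⟨n, hn, hne⟩ := two_points hdd u (f s)
      refine ⟨d n, hn, ?_⟩
      rintro y (h | h)
      · exact (hCd s t _ h).1 n rfl
      · exact hne (Prod.mk.inj h).1
    · intro s t u
      obtain ⟨n, hn, hne⟩ := two_points hdd' u (f' t)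
      refine ⟨d' n, hn, ?_⟩
      rintro y (h | h)
      · exact (hCd s t _ h).2 n rfl
      · exact hne (Prod.mk.inj h).2
  obtain ⟨h, hl, hr⟩ := glue hG
  -- lengths of pairs with small codes are bounded
  have hbd : ∀ c, ∃ ℓ, ∀ s t : List Bool, (ℓ ≤ s.length ∨ ℓ ≤ t.length) →
      c ≤ Encodable.encode (s, t) := by
    intro c
    have hfin : {p : List Bool × List Bool | Encodable.encode p < c}.Finite :=
      Set.Finite.of_finite_image ((finite_lt_nat c).subset (by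
        rintro _ ⟨p, hp, rfl⟩; exact hp)) (f := Encodable.encode)
        (Encodable.encode_injective.injOn)
    obtain ⟨ℓ, hℓ⟩ := (hfin.image (fun p => p.1.length + p.2.length)).bddAbove
    refine ⟨ℓ + 1, fun s t hst => ?_⟩
    by_contra hlt
    push Not at hlt
    have := hℓ ⟨(s, t), hlt, rfl⟩
    simp only at this
    omega
  have capA : ∀ x ∈ A, ∃ s t, (x, h x) ∈ G s t := by
    intro x hx
    obtain ⟨c, hc⟩ := eventually_atTop.1 (hN₁ _ ⟨⟨x, hx⟩, rfl⟩)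
    obtain ⟨ℓ, hℓ⟩ := hbd c
    refine hl x ℓ fun s t hs hxs => ?_
    have h1 := hc _ (hℓ s t (Or.inl hs))
    simp only [Encodable.encodek, Option.elim_some, dif_pos hxs] at h1
    refine mem_Dm.2 ⟨(e s t ⟨x, hx, hxs⟩).1, Or.inl (subset_closure ⟨⟨x, hx, hxs⟩, fun n => ?_, rfl⟩)⟩
    refine (hmd s t ⟨x, hx, hxs⟩ n).mono _ _ _ ?_
    have h2 := hM s t ⟨x, hx, hxs⟩ n
    simp only [NN]
    omega
  have capB : ∀ x, h x ∈ B → ∃ s t, (x, h x) ∈ G s t := by
    intro x hx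
    obtain ⟨c, hc⟩ := eventually_atTop.1 (hN₂ _ ⟨⟨h x, hx⟩, rfl⟩)
    obtain ⟨ℓ, hℓ⟩ := hbd c
    refine hr x ℓ fun s t ht hxt => ?_
    have h1 := hc _ (hℓ s t (Or.inr ht))
    simp only [Encodable.encodek, Option.elim_some, dif_pos hxt] at h1
    let a := (e s t).symm ⟨h x, hx, hxt⟩
    have h1' : kk s t a ≤ N₂ (Encodable.encode (s, t)) := h1
    refine mem_Rn.2 ⟨a.1, Or.inl (subset_closure ⟨a, fun n => ?_, ?_⟩)⟩
    · refine (hmd s t a n).mono _ _ _ ?_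
      have h2 := hM s t a n
      simp only [NN]
      omega
    · simp [a]
  have capd : ∀ n, ∃ s t, (d n, h (d n)) ∈ G s t := by
    intro n
    obtain ⟨ℓ, hℓ⟩ := hf3 n
    exact hl (d n) ℓ fun s t hs hxs => mem_Dm.2 ⟨f' t, Or.inr (by rw [hℓ s hs hxs]; rfl)⟩
  have capd' : ∀ x n, h x = d' n → ∃ s t, (x, h x) ∈ G s t := by
    intro x n hx
    obtain ⟨ℓ, hℓ⟩ := hf3' n
    refine hr x ℓ fun s t hs hxs => mem_Rn.2 ⟨f s, Or.inr ?_⟩
    rw [hx] at hxs ⊢
    rw [hℓ t hs hxs]; rfl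
  refine ⟨h, ?_, ?_⟩
  · apply Subset.antisymm
    · rintro _ ⟨x, hx, rfl⟩
      obtain ⟨s, t, hst | hst⟩ := capA x hx
      · exact Gr_A hd hd' hst (Gr_sub hst).1 hx
      · obtain ⟨n, hn⟩ := hf2 s
        have : x = f s := (Prod.mk.inj hst).1
        exact absurd (this ▸ hx) (by rw [hn]; exact hd n)
    · intro y hy
      obtain ⟨x, rfl⟩ := h.surjective y
      obtain ⟨s, t, hst | hst⟩ := capB x hy
      · exact ⟨x, Gr_B hd hd' hst (Gr_sub hst).2 hy, rfl⟩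
      · obtain ⟨n, hn⟩ := hf2' t
        have : h x = f' t := (Prod.mk.inj hst).2
        exact absurd (this ▸ hy) (by rw [hn]; exact hd' n)
  · apply Subset.antisymm
    · rintro _ ⟨_, ⟨n, rfl⟩, rfl⟩
      obtain ⟨s, t, hst | hst⟩ := capd n
      · exact absurd rfl ((hCd s t _ hst).1 n)
      · obtain ⟨m, hm⟩ := hf2' t
        exact ⟨m, by rw [(Prod.mk.inj hst).2, hm]⟩
    · rintro _ ⟨n, rfl⟩
      obtain ⟨x, hx⟩ := h.surjective (d' n)
      obtain ⟨s, t, hst | hst⟩ := capd' x n hx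
      · exact absurd hx ((hCd s t _ hst).2 n)
      · obtain ⟨m, hm⟩ := hf2 s
        exact ⟨x, ⟨m, by rw [(Prod.mk.inj hst).1, hm]⟩, hx⟩

end Pool.Agent.Lib.MP_ddd032_lc
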