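import Pool.Agent.Lib.MP_ddd032_lc.Unb

set_option autoImplicit false

/-!
Failure of the weak axiom between the unbounding number and the continuum.
-/

namespace Pool.Agent.Lib.MP_ddd032_lc

open Cardinal Set Filter Topology

theorem not_meagre_univ : ¬ IsMeagre (Set.univ : Set X) := by
  intro h
  obtain ⟨x, hx⟩ := (dense_of_mem_residual h).nonempty
  exact hx trivial

theorem nonM_le : nonM ≤ 𝔠 := by
  have h : nonM ≤ #(Set.univ : Set X) := csInf_le' ⟨Set.univ, rfl, not_meagre_univ⟩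
  refine le_trans h ?_
  rw [Cardinal.mk_univ, mk_X]

theorem exists_nonmeagre : ∃ N : Set X, #N = nonM ∧ ¬ IsMeagre N :=
  csInf_mem (s := {c | ∃ A : Set (ℕ → Bool), #A = c ∧ ¬ IsMeagre A})
    ⟨_, Set.univ, rfl, not_meagre_univ⟩

theorem nowhereDense_singleton (x : X) : IsNowhereDense ({x} : Set X) := by
  rw [IsNowhereDense, closure_singleton, ← not_nonempty_iff_eq_empty]
  rintro ⟨y, hy⟩
  obtain ⟨n, hn⟩ := exists_cyl_subset isOpen_interior hy
  have h1 : ∀ z ∈ cyl (pre y n), z = x := fun z hz => by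
    have h6 := interior_subset (hn hz)
    exact h6
  have h2 := h1 _ (wd_mem (pre y n) (fun _ => true, x))
  have h3 := h1 _ (wd_mem (pre y n) (fun _ => false, x))
  have h4 := (wd_inj (h2.trans h3.symm)).2
  have h5 := congrFun (Prod.mk.inj h4).1 0
  simp at h5

theorem countable_meagre {C : Set X} (hC : C.Countable) : IsMeagre C := by
  have : C = ⋃ x : C, {x.1} := by ext; simp
  rw [this]
  have := hC.to_subtype
  exact isMeagre_iUnion fun x => (nowhereDense_singleton x.1).isMeagre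

theorem not_meagre_inter {N : Set X} (hN : ¬ IsMeagre N) : ¬ IsMeagre (N ∩ Inf) := by
  intro h
  apply hN
  have h1 : N ⊆ ⋃ b : Bool, cond b (N ∩ Inf) Infᶜ := by
    intro x hx
    by_cases hxI : x ∈ Inf
    · exact mem_iUnion.2 ⟨true, hx, hxI⟩
    · exact mem_iUnion.2 ⟨false, hxI⟩
  refine IsMeagre.mono h1 (isMeagre_iUnion fun b => ?_)
  cases b
  · exact countable_meagre countable_compl_inf
  · exact h

/-- a pair of non-homeomorphic dense sets -/
def Pr (κ : Cardinal.{0}) : Prop :=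
  ∃ A B : Set X, A ⊆ Inf ∧ B ⊆ Inf ∧ KDense κ A ∧ KDense κ B ∧ ¬ Nonempty (A ≃ₜ B)

theorem mk_union_le' {κ : Cardinal.{0}} (hκ : ℵ₀ ≤ κ) {A B : Set X} (hA : #A ≤ κ) (hB : #B ≤ κ) :
    #(A ∪ B : Set X) ≤ κ :=
  le_trans (Cardinal.mk_union_le A B) (le_trans (add_le_add hA hB) (Cardinal.add_eq_self hκ).le)

theorem pr_of_lam {κ : Cardinal.{0}} (hb : bNum ≤ κ) {P : Set (X × X)} (hP : #P = κ)
    (hL : Lam P) : Pr κ := by
  have hκ : ℵ₀ ≤ κ := le_trans aleph0_lt_bNum.le hb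
  obtain ⟨F, hF, hunb⟩ := exists_unb
  refine ⟨Spr P, Spr P ∪ (flip '' Infᶜ ∪ flip '' (cde '' F)), spr_sub P, ?_, ?_, ?_, ?_⟩
  · refine union_subset (spr_sub P) (union_subset ?_ ?_)
    · rintro _ ⟨x, hx, rfl⟩
      exact flip_inf hx
    · rintro _ ⟨_, ⟨f, -, rfl⟩, rfl⟩
      exact flip_cde_inf f
  · exact kdense_of hP Subset.rfl (mk_spr_le hκ hP)
  · refine kdense_of hP subset_union_left (mk_union_le' hκ (mk_spr_le hκ hP)
      (mk_union_le' hκ ?_ ?_))
    · exact le_trans (Cardinal.le_aleph0_iff_set_countable.2 (countable_compl_inf.image _)) hκ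
    · refine le_trans Cardinal.mk_image_le (le_trans Cardinal.mk_image_le ?_)
      rw [hF]; exact hb
  · rintro ⟨e⟩
    exact not_lam hunb (subset_union_left.trans subset_union_right)
      (subset_union_right.trans subset_union_right) (Lam.of_homeo e.symm (spr_lam hL))

theorem pr_of_nonM {κ : Cardinal.{0}} (hb : bNum ≤ κ) (hn : nonM ≤ κ) (hc : κ ≤ 𝔠) : Pr κ := by
  have hκ : ℵ₀ ≤ κ := le_trans aleph0_lt_bNum.le hb
  obtain ⟨N, hN, hNm⟩ := exists_nonmeagre
  have h1 : κ ≤ #(X × X) := by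
    rw [Cardinal.mk_prod, mk_X]
    simpa using hc
  obtain ⟨P, hP⟩ := Cardinal.le_mk_iff_exists_set.1 h1
  have hne : P.Nonempty := by
    rw [← Set.nonempty_coe_sort, ← Cardinal.mk_ne_zero_iff, hP]
    intro h0
    rw [h0] at hκ
    exact absurd hκ (not_le.2 Cardinal.aleph0_pos)
  refine ⟨Spr P, Spr P ∪ (N ∩ Inf), spr_sub P, union_subset (spr_sub P) inter_subset_right,
    kdense_of hP Subset.rfl (mk_spr_le hκ hP), kdense_of hP subset_union_left
    (mk_union_le' hκ (mk_spr_le hκ hP) (le_trans (Cardinal.mk_le_mk_of_subset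
      inter_subset_left) (hN.le.trans hn))), ?_⟩
  rintro ⟨e⟩
  exact not_meagre_inter hNm (IsMeagre.mono subset_union_right (meagre_of_homeo hne e))

/-- every countable subset of `S` is a `G_δ` subset of `S` -/
def IsLambda (S : Set X) : Prop := ∀ C : Set S, C.Countable → IsGδ C

theorem IsLambda.lam {S : Set X} (hS : IsLambda S) : Lam S := by
  intro C hC
  have h1 : IsGδ (Subtype.val ⁻¹' C : Set S) := hS _ (hC.preimage Subtype.val_injective)
  obtain ⟨U, hU, hUe⟩ := isGδ_iff_eq_iInter_nat.1 h1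
  have h2 : ∀ n, ∃ K : Set X, IsClosed K ∧ Subtype.val ⁻¹' K = (U n)ᶜ := fun n =>
    isClosed_induced_iff.1 (hU n).isClosed_compl
  choose K hK hKe using h2
  have hmem : ∀ n (a : S), a.1 ∈ K n ↔ a ∉ U n := fun n a => Set.ext_iff.1 (hKe n) a
  refine ⟨K, hK, ?_, fun n => ?_⟩
  · rintro x ⟨hxS, hxC⟩
    have h3 : (⟨x, hxS⟩ : S) ∉ ⋂ n, U n := by
      rw [← hUe]; exact hxC
    rw [mem_iInter] at h3
    push Not at h3
    obtain ⟨n, hn⟩ := h3
    exact mem_iUnion.2 ⟨n, (hmem n ⟨x, hxS⟩).2 hn⟩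
  · rw [disjoint_left]
    rintro x hxK ⟨hxS, hxC⟩
    have h3 : (⟨x, hxS⟩ : S) ∈ ⋂ n, U n := by
      rw [← hUe]; exact hxC
    exact (hmem n ⟨x, hxS⟩).1 hxK (mem_iInter.1 h3 n)

theorem lam_prod {S : Set X} (hS : Lam S) : Lam ((fun x : X => (x, x)) '' S) := by
  intro C hC
  have h1 := (hS ((fun x : X => (x, x)) ⁻¹' C) (hC.preimage fun x y h => (Prod.mk.inj h).1))
  have h2 := h1.preimage (continuous_fst (X := X) (Y := X))
  refine h2.mono ?_ ?_
  · rintro _ ⟨⟨x, hx, rfl⟩, hxC⟩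
    exact ⟨hx, hxC⟩
  · rintro _ ⟨⟨x, hx, rfl⟩, hxC⟩
    exact ⟨hx, hxC⟩

/-- the range of cardinals treated -/
def Rng (κ : Cardinal.{0}) : Prop :=
  κ ≤ bNum ∨ κ ≤ covM ∨ nonM ≤ κ ∨ ∃ S : Set X, #S = κ ∧ IsLambda S

theorem pr_of_rng {κ : Cardinal.{0}} (hb : bNum ≤ κ) (hc : κ ≤ 𝔠) (h : Rng κ) : Pr κ := by
  have hκ : ℵ₀ ≤ κ := le_trans aleph0_lt_bNum.le hb
  rcases h with h | h | h | ⟨S, hS, hl⟩
  · have he : κ = bNum := le_antisymm h hb
    obtain ⟨P, hP, hL⟩ := exists_lam_b aleph0_lt_bNum.le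
    exact pr_of_lam hb (hP.trans he.symm) hL
  · by_cases hn : κ ≤ nonM
    · obtain ⟨P, hP, hL⟩ := exists_lam_meager hκ h hn
      exact pr_of_lam hb hP hL
    · exact pr_of_nonM hb (not_le.1 hn).le hc
  · exact pr_of_nonM hb h hc
  · refine pr_of_lam hb (P := (fun x : X => (x, x)) '' S) ?_ (lam_prod hl.lam)
    rw [Cardinal.mk_image_eq (fun x y h => (Prod.mk.inj h).1), hS]

theorem not_weak_of_pr {κ : Cardinal.{0}} (h : Pr κ) : ¬ BAweak κ X := by
  obtain ⟨A, B, -, -, hA, hB, hn⟩ := h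
  exact fun hw => hn (hw A B hA hB)

theorem cantor {κ : Cardinal.{0}} (h : Rng κ) : BAweak κ X ↔ BA κ X := by
  refine ⟨fun hw => ?_, BAweak_of_BA⟩
  by_cases hb : κ < bNum
  · exact BA_of_lt hb hw
  · push Not at hb
    by_cases hc : κ ≤ 𝔠
    · exact absurd hw (not_weak_of_pr (pr_of_rng hb hc h))
    · exact BA_of_gt (by rw [mk_X]; exact not_le.1 hc)

end Pool.Agent.Lib.MP_ddd032_lc
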