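import Pool.Agent.Lib.MP_ddd032_lc.MThm

set_option autoImplicit false

/-!
Local homeomorphisms from the weak axiom on Cantor space, and the positive direction below the
unbounding number.
-/

namespace Pool.Agent.Lib.MP_ddd032_lc

open Cardinal Set Filter Topology

/-- prepend a string -/
def app (s : List Bool) (z : X) : X := fun i => if h : i < s.length then s[i] else z (i - s.length)

/-- drop `n` entries -/
def shf (n : ℕ) (z : X) : X := fun i => z (i + n)

theorem app_mem (s : List Bool) (z : X) : app s z ∈ cyl s := by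
  rw [mem_cyl]
  apply List.ext_getElem
  · simp [pre]
  · intro i h1 h2
    simp [pre, app, h2]

theorem shf_app (s : List Bool) (z : X) : shf s.length (app s z) = z := by
  funext i
  simp [shf, app]

theorem app_shf {s : List Bool} {x : X} (hx : x ∈ cyl s) : app s (shf s.length x) = x := by
  funext i
  unfold app shf
  split_ifs with h
  · have h1 := mem_cyl.1 hx
    have h2 : (pre x s.length)[i]? = s[i]? := by rw [h1]
    rw [List.getElem?_eq_getElem h] at h2
    simp [pre, h] at h2
    exact h2.symm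
  · congr 1; omega

theorem continuous_app (s : List Bool) : Continuous (app s) := by
  refine continuous_pi fun i => ?_
  unfold app
  split_ifs with h
  · exact continuous_const
  · exact continuous_apply _

theorem continuous_shf (n : ℕ) : Continuous (shf n) :=
  continuous_pi fun _ => continuous_apply _

theorem app_injective (s : List Bool) : Function.Injective (app s) := fun x y h => by
  rw [← shf_app s x, h, shf_app]

/-- the part of `A` in a cylinder is homeomorphic to its shift -/
def locHomeo (A : Set X) (s : List Bool) : ↥(A ∩ cyl s) ≃ₜ ↥(app s ⁻¹' A) where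
  toFun x := ⟨shf s.length x.1, by
    show app s (shf s.length x.1) ∈ A
    rw [app_shf x.2.2]; exact x.2.1⟩
  invFun z := ⟨app s z.1, z.2, app_mem s z.1⟩
  left_inv x := Subtype.ext (app_shf x.2.2)
  right_inv z := Subtype.ext (shf_app s z.1)
  continuous_toFun := ((continuous_shf _).comp continuous_subtype_val).subtype_mk _
  continuous_invFun := ((continuous_app s).comp continuous_subtype_val).subtype_mk _

theorem kdense_app {κ : Cardinal.{0}} {A : Set X} (hA : KDense κ A) (s : List Bool) :
    KDense κ (app s ⁻¹' A) := by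
  intro U hU hne
  have h1 : IsOpen (shf s.length ⁻¹' U ∩ cyl s) :=
    (hU.preimage (continuous_shf _)).inter (isOpen_cyl s)
  obtain ⟨u, hu⟩ := hne
  have h2 := hA _ h1 ⟨app s u, by show shf s.length (app s u) ∈ U; rw [shf_app]; exact hu,
    app_mem s u⟩
  rw [← h2]
  have h3 : app s '' (app s ⁻¹' A ∩ U) = A ∩ (shf s.length ⁻¹' U ∩ cyl s) := by
    ext x
    constructor
    · rintro ⟨z, ⟨hz, hzU⟩, rfl⟩
      exact ⟨hz, by show shf s.length (app s z) ∈ U; rw [shf_app]; exact hzU, app_mem s z⟩
    · rintro ⟨hx, hxU, hxs⟩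
      exact ⟨shf s.length x, ⟨by show app s (shf s.length x) ∈ A; rw [app_shf hxs]; exact hx,
        hxU⟩, app_shf hxs⟩
  rw [← h3, Cardinal.mk_image_eq (app_injective s)]

theorem local_homeos {κ : Cardinal.{0}} (h : BAweak κ X) {A B : Set X} (hA : KDense κ A)
    (hB : KDense κ B) (s t : List Bool) : Nonempty (↥(A ∩ cyl s) ≃ₜ ↥(B ∩ cyl t)) := by
  obtain ⟨e⟩ := h _ _ (kdense_app hA s) (kdense_app hB t)
  exact ⟨(locHomeo A s).trans (e.trans (locHomeo B t).symm)⟩

theorem mk_X : #X = 𝔠 := by simp

theorem mk_cyl (s : List Bool) : #(cyl s) = 𝔠 := by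
  apply le_antisymm
  · rw [← mk_X]; exact Cardinal.mk_set_le _
  · rw [← mk_X, ← Cardinal.mk_image_eq (s := univ) (app_injective s) |>.trans Cardinal.mk_univ]
    refine Cardinal.mk_le_mk_of_subset ?_
    rintro _ ⟨z, -, rfl⟩
    exact app_mem s z

theorem bNum_le : bNum ≤ 𝔠 := by
  have h : bNum ≤ #(univ : Set (ℕ → ℕ)) := by
    refine csInf_le' ⟨univ, rfl, ?_⟩
    rintro ⟨g, hg⟩
    obtain ⟨N, hN⟩ := eventually_atTop.1 (hg (fun n => g n + 1) trivial)
    have h3 : g N + 1 ≤ g N := hN N le_rfl
    omega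
  refine le_trans h ?_
  simp

theorem kdense_univ {κ : Cardinal.{0}} {Y : Type} [TopologicalSpace Y] [Nonempty Y] {A : Set Y}
    (hA : KDense κ A) : #A = κ := by
  have := hA univ isOpen_univ univ_nonempty
  rwa [inter_univ] at this

/-- a dense sequence avoiding a small set -/
theorem exists_dense_seq {A : Set X} (hA : #A < 𝔠) : ∃ d : ℕ → X, DenseRange d ∧ ∀ n, d n ∉ A := by
  have h : ∀ s : List Bool, ∃ x ∈ cyl s, x ∉ A := by
    intro s
    by_contra hcon
    push Not at hcon
    have : #(cyl s) ≤ #A := Cardinal.mk_le_mk_of_subset hcon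
    rw [mk_cyl] at this
    exact absurd hA (not_lt.2 this)
  choose f hf hf' using h
  obtain ⟨e, he⟩ := exists_surjective_nat (List Bool)
  refine ⟨fun n => f (e n), ?_, fun n => hf' _⟩
  rw [DenseRange, dense_iff_inter_open]
  intro U hU hne
  obtain ⟨s, hs⟩ := exists_cyl_subset' hU hne
  obtain ⟨n, rfl⟩ := he s
  exact ⟨f (e n), hs (hf _), n, rfl⟩

theorem BA_of_lt {κ : Cardinal.{0}} (hκ : κ < bNum) (h : BAweak κ X) : BA κ X := by
  intro A B hA hB
  have hAk : #A < bNum := by rw [kdense_univ hA]; exact hκ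
  have hBk : #B < bNum := by rw [kdense_univ hB]; exact hκ
  obtain ⟨d, hd, hdA⟩ := exists_dense_seq (lt_of_lt_of_le hAk bNum_le)
  obtain ⟨d', hd', hdB⟩ := exists_dense_seq (lt_of_lt_of_le hBk bNum_le)
  obtain ⟨g, hg, -⟩ := exists_homeo hAk hBk (local_homeos h hA hB) d d' hd hd' hdA hdB
  exact ⟨g, hg⟩

theorem BAweak_of_BA {κ : Cardinal.{0}} {Y : Type} [TopologicalSpace Y] (h : BA κ Y) :
    BAweak κ Y := by
  intro A B hA hB
  obtain ⟨g, hg⟩ := h A B hA hB
  exact ⟨(g.image A).trans (Homeomorph.setCongr hg)⟩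

theorem BA_of_gt {κ : Cardinal.{0}} {Y : Type} [TopologicalSpace Y] [Nonempty Y] (hY : #Y < κ) :
    BA κ Y := by
  intro A B hA _
  exfalso
  have := kdense_univ hA
  have h2 : #A ≤ #Y := Cardinal.mk_set_le A
  rw [this] at h2
  exact absurd hY (not_lt.2 h2)

end Pool.Agent.Lib.MP_ddd032_lc
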