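import Pool.Agent.Lib.MP_ddd032_lc.Lam

set_option autoImplicit false

/-!
Spreading a set over the whole Cantor space.
-/

namespace Pool.Agent.Lib.MP_ddd032_lc

open Cardinal Set Filter Topology

/-- points with infinitely many `true` -/
def Inf : Set X := {x | ∀ N, ∃ n ≥ N, x n = true}

/-- blocks `0 p 0 1` -/
def blk (q : X × X) : X := fun n =>
  if n % 4 = 1 then (if n / 4 % 2 = 0 then q.1 (n / 8) else q.2 (n / 8))
  else decide (n % 4 = 3)

theorem continuous_blk : Continuous blk := by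
  refine continuous_pi fun n => ?_
  unfold blk
  split_ifs with h1 h2
  · exact (continuous_apply _).comp continuous_fst
  · exact (continuous_apply _).comp continuous_snd
  · exact continuous_const

theorem blk_injective : Function.Injective blk := by
  intro q q' h
  refine Prod.ext ?_ ?_
  · funext i
    have := congrFun h (8 * i + 1)
    have h1 : (8 * i + 1) % 4 = 1 := by omega
    have h2 : (8 * i + 1) / 4 % 2 = 0 := by omega
    have h3 : (8 * i + 1) / 8 = i := by omega
    simpa only [blk, h1, h2, h3, if_true] using this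
  · funext i
    have := congrFun h (8 * i + 5)
    have h1 : (8 * i + 5) % 4 = 1 := by omega
    have h2 : (8 * i + 5) / 4 % 2 ≠ 0 := by omega
    have h3 : (8 * i + 5) / 8 = i := by omega
    simpa only [blk, h1, h2, h3, if_true, if_false] using this

theorem blk_pair (q : X × X) (n : ℕ) : ¬ (blk q n = true ∧ blk q (n + 1) = true) := by
  rintro ⟨h1, h2⟩
  by_cases a : n % 4 = 1
  · have b : ¬ (n + 1) % 4 = 1 := by omega
    have c : ¬ (n + 1) % 4 = 3 := by omega
    simp [blk, b, c] at h2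
  · by_cases b : n % 4 = 3
    · have c : ¬ (n + 1) % 4 = 1 := by omega
      have d : ¬ (n + 1) % 4 = 3 := by omega
      simp [blk, c, d] at h2
    · simp [blk, a, b] at h1

theorem blk_inf (q : X × X) : blk q ∈ Inf := by
  intro N
  refine ⟨4 * N + 3, by omega, ?_⟩
  have h1 : ¬ (4 * N + 3) % 4 = 1 := by omega
  have h2 : (4 * N + 3) % 4 = 3 := by omega
  show (if _ then _ else _) = true
  rw [if_neg h1, h2]
  rfl

/-- the spreading maps -/
def wd (s : List Bool) (q : X × X) : X := app (s ++ [true, true]) (blk q)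

theorem continuous_wd (s : List Bool) : Continuous (wd s) :=
  (continuous_app _).comp continuous_blk

theorem wd_mem (s : List Bool) (q : X × X) : wd s q ∈ cyl s :=
  cyl_anti (List.prefix_append _ _) (app_mem _ _)

theorem app_inf {s : List Bool} {z : X} (h : z ∈ Inf) : app s z ∈ Inf := by
  intro N
  obtain ⟨n, hn, hz⟩ := h N
  refine ⟨n + s.length, by omega, ?_⟩
  simp [app, hz]

theorem wd_inf (s : List Bool) (q : X × X) : wd s q ∈ Inf := app_inf (blk_inf q)

theorem wd_at (s : List Bool) (q : X × X) :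
    wd s q s.length = true ∧ wd s q (s.length + 1) = true := by
  constructor <;> simp [wd, app]

theorem app_ge {s : List Bool} {n : ℕ} (h : s.length ≤ n) (z : X) :
    app s z n = z (n - s.length) := by
  unfold app
  rw [dif_neg (by omega)]

theorem wd_ge {s : List Bool} {n : ℕ} (h : s.length + 2 ≤ n) (q : X × X) :
    wd s q n = blk q (n - (s.length + 2)) := by
  have hl : (s ++ [true, true]).length = s.length + 2 := by simp
  unfold wd
  rw [app_ge (by omega), hl]

theorem wd_after (s : List Bool) (q : X × X) {n : ℕ} (hn : s.length < n) :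
    ¬ (wd s q n = true ∧ wd s q (n + 1) = true) := by
  rintro ⟨h1, h2⟩
  rw [wd_ge (by omega)] at h2
  by_cases h3 : n = s.length + 1
  · subst h3
    have : s.length + 1 + 1 - (s.length + 2) = 0 := by omega
    rw [this] at h2
    simp [blk] at h2
  · rw [wd_ge (by omega)] at h1
    have : n + 1 - (s.length + 2) = (n - (s.length + 2)) + 1 := by omega
    rw [this] at h2
    exact blk_pair q _ ⟨h1, h2⟩

theorem wd_inj {s t : List Bool} {q q' : X × X} (h : wd s q = wd t q') : s = t ∧ q = q' := by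
  have hlen : s.length = t.length := by
    rcases lt_trichotomy s.length t.length with hlt | heq | hlt
    · exact absurd (h ▸ wd_at t q') (wd_after s q hlt)
    · exact heq
    · exact absurd (h ▸ wd_at s q) (wd_after t q' hlt)
  have hst : s = t := by
    have h1 := wd_mem s q
    have h2 := wd_mem t q'
    rw [mem_cyl] at h1 h2
    rw [← h1, ← h2, h, hlen]
  subst hst
  exact ⟨rfl, blk_injective (app_injective _ h)⟩

/-- the spread of `P` -/
def Spr (P : Set (X × X)) : Set X := ⋃ s : List Bool, wd s '' P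

theorem mem_spr {P : Set (X × X)} {s : List Bool} {p : X × X} (hp : p ∈ P) : wd s p ∈ Spr P :=
  mem_iUnion.2 ⟨s, p, hp, rfl⟩

theorem spr_sub (P : Set (X × X)) : Spr P ⊆ Inf := by
  intro x hx
  obtain ⟨s, p, -, rfl⟩ := mem_iUnion.1 hx
  exact wd_inf s p

theorem mk_spr_le {κ : Cardinal.{0}} (hκ : ℵ₀ ≤ κ) {P : Set (X × X)} (hP : #P = κ) :
    #(Spr P) ≤ κ := by
  have h1 : Spr P = (fun a : List Bool × (X × X) => wd a.1 a.2) '' (Set.univ ×ˢ P) := by
    ext x
    simp only [Spr, mem_iUnion, mem_image, Prod.exists, mem_prod, mem_univ, true_and]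
  rw [h1]
  refine le_trans Cardinal.mk_image_le ?_
  have h2 : #(↥((Set.univ : Set (List Bool)) ×ˢ P)) = #(List Bool) * #P := by
    rw [Cardinal.mk_congr (Equiv.Set.prod _ _)]
    simp [Cardinal.mk_prod]
  rw [h2, hP]
  refine le_trans (mul_le_mul_left (Cardinal.mk_le_aleph0) κ) ?_
  rw [Cardinal.aleph0_mul_eq hκ]

theorem kdense_of {κ : Cardinal.{0}} {P : Set (X × X)} (hP : #P = κ) {A : Set X}
    (hA : Spr P ⊆ A) (hc : #A ≤ κ) : KDense κ A := by
  intro U hU hne
  apply le_antisymm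
  · exact le_trans (Cardinal.mk_le_mk_of_subset inter_subset_left) hc
  · obtain ⟨s, hs⟩ := exists_cyl_subset' hU hne
    rw [← hP, ← Cardinal.mk_image_eq (s := P) (f := wd s) (fun q q' h => (wd_inj h).2)]
    refine Cardinal.mk_le_mk_of_subset ?_
    rintro _ ⟨p, hp, rfl⟩
    exact ⟨hA (mem_spr hp), hs (wd_mem s p)⟩

theorem spr_lam {P : Set (X × X)} (hP : Lam P) : Lam (Spr P) := by
  intro C hC
  have h1 : Spr P \ C = ⋃ s : List Bool, (wd s '' P \ C) := by
    rw [Spr, iUnion_sdiff]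
  rw [h1]
  refine Sep.iUnion fun s => ?_
  obtain ⟨H, hH, hH2, hH3⟩ := hP (wd s ⁻¹' C)
    (hC.preimage (fun q q' h => (wd_inj h).2))
  refine ⟨fun n => wd s '' H n, fun n => ((hH n).isCompact.image (continuous_wd s)).isClosed,
    ?_, fun n => ?_⟩
  · rintro _ ⟨⟨p, hp, rfl⟩, hpC⟩
    obtain ⟨n, hn⟩ := mem_iUnion.1 (hH2 ⟨hp, hpC⟩)
    exact mem_iUnion.2 ⟨n, p, hn, rfl⟩
  · rw [disjoint_left]
    rintro _ ⟨q, hq, rfl⟩ ⟨hz, hzC⟩
    obtain ⟨t, p, hp, hpq⟩ := mem_iUnion.1 hz
    obtain ⟨-, rfl⟩ := wd_inj hpq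
    exact disjoint_left.1 (hH3 n) hq ⟨hp, hzC⟩

theorem Lam.of_homeo {A B : Set X} (e : A ≃ₜ B) (hB : Lam B) : Lam A := by
  intro C hC
  obtain ⟨H, hH, hH2, hH3⟩ := hB (Subtype.val '' (e '' (Subtype.val ⁻¹' C)))
    (((hC.preimage Subtype.val_injective).image _).image _)
  have h1 : ∀ n, ∃ K : Set X, IsClosed K ∧ Subtype.val ⁻¹' K = e ⁻¹' (Subtype.val ⁻¹' H n) := by
    intro n
    have : IsClosed (e ⁻¹' (Subtype.val ⁻¹' H n)) :=
      ((hH n).preimage continuous_subtype_val).preimage e.continuous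
    exact isClosed_induced_iff.1 this
  choose K hK hKe using h1
  have hmem : ∀ n (a : A), a.1 ∈ K n ↔ (e a).1 ∈ H n := by
    intro n a
    have := Set.ext_iff.1 (hKe n) a
    exact this
  refine ⟨K, hK, ?_, fun n => ?_⟩
  · rintro x ⟨hxA, hxC⟩
    have h2 : (e ⟨x, hxA⟩).1 ∈ B \ (Subtype.val '' (e '' (Subtype.val ⁻¹' C))) := by
      refine ⟨(e ⟨x, hxA⟩).2, ?_⟩
      rintro ⟨_, ⟨c, hc, rfl⟩, h⟩
      have := e.injective (Subtype.ext h)
      exact hxC (by rw [this] at hc; exact hc)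
    obtain ⟨n, hn⟩ := mem_iUnion.1 (hH2 h2)
    exact mem_iUnion.2 ⟨n, (hmem n ⟨x, hxA⟩).2 hn⟩
  · rw [disjoint_left]
    rintro x hxK ⟨hxA, hxC⟩
    exact disjoint_left.1 (hH3 n) ((hmem n ⟨x, hxA⟩).1 hxK)
      ⟨(e ⟨x, hxA⟩).2, ⟨_, ⟨⟨x, hxA⟩, hxC, rfl⟩, rfl⟩⟩

theorem Sep.preimage {Y Y' : Type} [TopologicalSpace Y] [TopologicalSpace Y'] {f : Y → Y'}
    (hf : Continuous f) {T C : Set Y'} (h : Sep T C) : Sep (f ⁻¹' T) (f ⁻¹' C) := by
  obtain ⟨H, h1, h2, h3⟩ := h
  refine ⟨fun n => f ⁻¹' H n, fun n => (h1 n).preimage hf, ?_, fun n => (h3 n).preimage f⟩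
  rw [← preimage_iUnion]
  exact preimage_mono h2

/-- A set homeomorphic to a spread, and dense, is meager. -/
theorem meagre_of_homeo {P : Set (X × X)} (hne : P.Nonempty) {B : Set X}
    (e : ↥(Spr P) ≃ₜ B) : IsMeagre B := by
  let T : List Bool → Set X := fun s => Subtype.val '' {b : B | (e.symm b).1 ∈ range (wd s)}
  have hcov : B ⊆ ⋃ s, T s := by
    intro b hb
    obtain ⟨s, p, -, hp⟩ := mem_iUnion.1 (e.symm ⟨b, hb⟩).2
    exact mem_iUnion.2 ⟨s, ⟨b, hb⟩, ⟨p, hp⟩, rfl⟩
  refine IsMeagre.mono hcov (isMeagre_iUnion fun s => ?_)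
  apply IsNowhereDense.isMeagre
  rw [IsNowhereDense, ← not_nonempty_iff_eq_empty]
  intro hint
  -- closedness in `B`
  have hcl : IsClosed (range (wd s)) := (isCompact_range (continuous_wd s)).isClosed
  have hTB : ∀ b : B, b.1 ∈ closure (T s) → (e.symm b).1 ∈ range (wd s) := by
    have h1 : IsClosed {b : B | (e.symm b).1 ∈ range (wd s)} :=
      (hcl.preimage continuous_subtype_val).preimage e.symm.continuous
    obtain ⟨K, hK, hKe⟩ := isClosed_induced_iff.1 h1
    intro b hb
    have h2 : T s ⊆ K := by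
      rintro _ ⟨c, hc, rfl⟩
      have : c ∈ Subtype.val ⁻¹' K := by rw [hKe]; exact hc
      exact this
    have h3 : b ∈ Subtype.val ⁻¹' K := closure_minimal h2 hK hb
    rw [hKe] at h3
    exact h3
  obtain ⟨x, hx⟩ := hint
  have hxT : (interior (closure (T s)) ∩ T s).Nonempty := by
    have := mem_closure_iff.1 (interior_subset hx) _ isOpen_interior hx
    exact this
  obtain ⟨_, hb, b, -, rfl⟩ := hxT
  have hopen : IsOpen (e ⁻¹' (Subtype.val ⁻¹' interior (closure (T s)))) :=
    (isOpen_interior.preimage continuous_subtype_val).preimage e.continuous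
  obtain ⟨V, hV, hVe⟩ := isOpen_induced_iff.1 hopen
  have hmem : ∀ z : ↥(Spr P), z.1 ∈ V ↔ (e z).1 ∈ interior (closure (T s)) := fun z =>
    Set.ext_iff.1 hVe z
  have hzV : (e.symm b).1 ∈ V := (hmem (e.symm b)).2 (by rw [e.apply_symm_apply]; exact hb)
  obtain ⟨n, hn⟩ := exists_cyl_subset hV hzV
  obtain ⟨p, hp⟩ := hne
  let t := pre (e.symm b).1 (max n (s.length + 1))
  have hz : wd t p ∈ V := hn (cyl_anti (pre_prefix _ (le_max_left _ _)) (wd_mem t p))
  have h4 := (hmem ⟨wd t p, mem_spr hp⟩).1 hz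
  have h5 := hTB _ (interior_subset h4)
  rw [e.symm_apply_apply] at h5
  obtain ⟨q, hq⟩ := h5
  have h6 := (wd_inj hq).1
  have h7 : t.length = max n (s.length + 1) := pre_length _ _
  rw [← h6] at h7
  omega

end Pool.Agent.Lib.MP_ddd032_lc
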