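import Pool.Agent.Lib.MP_ddd032_lc.Baire

set_option autoImplicit false

/-!
Sets whose countable subsets have small `G_δ` envelopes.
-/

namespace Pool.Agent.Lib.MP_ddd032_lc

open Cardinal Set Filter Topology

/-- every countable subset of `P` has a small `G_δ` envelope (outer formulation) -/
def Thn (κ : Cardinal.{0}) {Y : Type} [TopologicalSpace Y] (P : Set Y) : Prop :=
  ∀ C : Set Y, C.Countable → ∃ H : ℕ → Set Y, (∀ n, IsClosed (H n)) ∧
    (∀ n, Disjoint (H n) (P ∩ C)) ∧ #(P \ ⋃ n, H n : Set Y) < κ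

theorem Lam.thn {κ : Cardinal.{0}} (hκ : ℵ₀ < κ) {Y : Type} [TopologicalSpace Y] {P : Set Y}
    (hP : Lam P) : Thn κ P := by
  intro C hC
  obtain ⟨H, h1, h2, h3⟩ := hP C hC
  refine ⟨H, h1, h3, lt_of_le_of_lt ?_ hκ⟩
  refine Cardinal.le_aleph0_iff_set_countable.2 (hC.mono ?_)
  rintro x ⟨hx, hxH⟩
  by_contra hxC
  exact hxH (h2 ⟨hx, hxC⟩)

theorem Thn.of_homeo {κ : Cardinal.{0}} {A B : Set X} (e : A ≃ₜ B) (hB : Thn κ B) : Thn κ A := by
  intro C hC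
  obtain ⟨H, hH, hH3, hH2⟩ := hB (Subtype.val '' (e '' (Subtype.val ⁻¹' C)))
    (((hC.preimage Subtype.val_injective).image _).image _)
  have h1 : ∀ n, ∃ K : Set X, IsClosed K ∧ Subtype.val ⁻¹' K = e ⁻¹' (Subtype.val ⁻¹' H n) := by
    intro n
    have : IsClosed (e ⁻¹' (Subtype.val ⁻¹' H n)) :=
      ((hH n).preimage continuous_subtype_val).preimage e.continuous
    exact isClosed_induced_iff.1 this
  choose K hK hKe using h1
  have hmem : ∀ n (a : A), a.1 ∈ K n ↔ (e a).1 ∈ H n := by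
    intro n a
    have := Set.ext_iff.1 (hKe n) a
    exact this
  refine ⟨K, hK, fun n => ?_, ?_⟩
  · rw [disjoint_left]
    rintro x hxK ⟨hxA, hxC⟩
    exact disjoint_left.1 (hH3 n) ((hmem n ⟨x, hxA⟩).1 hxK)
      ⟨(e ⟨x, hxA⟩).2, ⟨_, ⟨⟨x, hxA⟩, hxC, rfl⟩, rfl⟩⟩
  · refine lt_of_le_of_lt ?_ hH2
    refine Cardinal.mk_le_of_injective
      (f := fun x : ↥(A \ ⋃ n, K n) => (⟨(e ⟨x.1, x.2.1⟩).1, (e ⟨x.1, x.2.1⟩).2, ?_⟩ :
        ↥(B \ ⋃ n, H n))) ?_
    · intro hx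
      obtain ⟨n, hn⟩ := mem_iUnion.1 hx
      exact x.2.2 (mem_iUnion.2 ⟨n, (hmem n ⟨x.1, x.2.1⟩).2 hn⟩)
    · intro x y hxy
      have h2 : e ⟨x.1, x.2.1⟩ = e ⟨y.1, y.2.1⟩ := Subtype.ext (by
        have h3 := congrArg (fun z : ↥(B \ ⋃ n, H n) => z.1) hxy
        exact h3)
      have h4 := e.injective h2
      have h5 : x.1 = y.1 := congrArg (fun z : A => z.1) h4
      exact Subtype.ext h5

theorem spr_thn {κ : Cardinal.{0}} (hκ : ℵ₀ < κ) {P : Set (X × X)} (hP : Thn κ P) :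
    Thn κ (Spr P) := by
  intro C hC
  obtain ⟨H, hH, hH3, hH2⟩ := hP (⋃ s, wd s ⁻¹' C)
    (countable_iUnion fun s => hC.preimage (fun q q' h => (wd_inj h).2))
  obtain ⟨e, he⟩ := exists_surjective_nat (List Bool × ℕ)
  refine ⟨fun k => wd (e k).1 '' H (e k).2, fun k =>
    ((hH _).isCompact.image (continuous_wd _)).isClosed, fun k => ?_, ?_⟩
  · rw [disjoint_left]
    rintro _ ⟨q, hq, rfl⟩ ⟨hz, hzC⟩
    obtain ⟨t, p, hp, hpq⟩ := mem_iUnion.1 hz
    obtain ⟨-, rfl⟩ := wd_inj hpq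
    exact disjoint_left.1 (hH3 _) hq ⟨hp, mem_iUnion.2 ⟨_, hzC⟩⟩
  · have h1 : (Spr P \ ⋃ k, wd (e k).1 '' H (e k).2) ⊆
        (fun a : List Bool × (X × X) => wd a.1 a.2) '' (Set.univ ×ˢ (P \ ⋃ n, H n)) := by
      rintro x ⟨hx, hxH⟩
      obtain ⟨s, p, hp, rfl⟩ := mem_iUnion.1 hx
      refine ⟨(s, p), ⟨trivial, hp, fun hpH => hxH ?_⟩, rfl⟩
      obtain ⟨n, hn⟩ := mem_iUnion.1 hpH
      obtain ⟨k, hk⟩ := he (s, n)
      exact mem_iUnion.2 ⟨k, p, by rw [hk]; exact hn, by rw [hk]⟩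
    refine lt_of_le_of_lt (Cardinal.mk_le_mk_of_subset h1) (lt_of_le_of_lt Cardinal.mk_image_le ?_)
    rw [Cardinal.mk_congr (Equiv.Set.prod _ _), Cardinal.mk_prod]
    simp only [Cardinal.lift_id, Cardinal.mk_univ]
    refine Cardinal.mul_lt_of_lt hκ.le (lt_of_le_of_lt Cardinal.mk_le_aleph0 hκ) hH2

/-- coding a function and a point together -/
def tw (f : ℕ → ℕ) (y : X) : ℕ → ℕ := fun n => 2 * f n + (y n).toNat

theorem tw_inj {f f' : ℕ → ℕ} {y y' : X} (h : tw f y = tw f' y') : y = y' := by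
  funext n
  have := congrFun h n
  unfold tw at this
  cases h1 : y n <;> cases h2 : y' n <;> simp [h1, h2] at this ⊢ <;> omega

theorem gr_inj {f g : ℕ → ℕ} (h : gr f = gr g) : f = g := by
  funext n
  cases n with
  | zero =>
    have := congrFun h 0
    simp [gr] at this
    exact this
  | succ n =>
    have h1 := congrFun h n
    have h2 := congrFun h (n + 1)
    rw [gr_succ, gr_succ] at h2
    omega

theorem cde_injective : Function.Injective cde := by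
  intro f g h
  apply gr_inj
  refine (StrictMono.range_inj (gr_strictMono f) (gr_strictMono g)).1 ?_
  ext n
  have h2 := congrFun h n
  rw [Bool.eq_iff_iff, cde_true, cde_true] at h2
  exact h2

theorem flip_injective : Function.Injective flip := fun x y h => by
  rw [← flip_flip x, h, flip_flip]

theorem not_thn {κ : Cardinal.{0}} {F : Set (ℕ → ℕ)} {D : Set X}
    (hF : ¬ ∃ g : ℕ → ℕ, ∀ f ∈ F, ∀ᶠ n in atTop, f n ≤ g n) (hD : #D = κ) {Y : Set X}
    (h1 : flip '' Infᶜ ⊆ Y) (h2 : ∀ f ∈ F, ∀ y ∈ D, flip (cde (tw f y)) ∈ Y) : ¬ Thn κ Y := by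
  intro hY
  obtain ⟨H, hH, hH3, hH2⟩ := hY (flip '' Infᶜ) (countable_compl_inf.image _)
  have hex : ∃ y ∈ D, ∀ f ∈ F, flip (cde (tw f y)) ∈ ⋃ n, H n := by
    by_contra hcon
    push Not at hcon
    choose! f hf hfn using hcon
    have : κ ≤ #(Y \ ⋃ n, H n : Set X) := by
      rw [← hD]
      refine Cardinal.mk_le_of_injective
        (f := fun y : D => (⟨flip (cde (tw (f y.1) y.1)), h2 _ (hf y.1 y.2) _ y.2,
          hfn y.1 y.2⟩ : ↥(Y \ ⋃ n, H n))) ?_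
      intro y y' hyy
      have h3 := congrArg Subtype.val hyy
      exact Subtype.ext (tw_inj (cde_injective (flip_injective h3)))
    exact absurd hH2 (not_lt.2 this)
  obtain ⟨y, hy, hyF⟩ := hex
  refine not_sep (F := (fun f => tw f y) '' F) ?_ ?_
  · rintro ⟨g, hg⟩
    apply hF
    refine ⟨g, fun f hf => ?_⟩
    filter_upwards [hg _ ⟨f, hf, rfl⟩] with n hn
    unfold tw at hn
    omega
  · refine ⟨fun n => flip ⁻¹' H n, fun n => (hH n).preimage continuous_flip, ?_, fun n => ?_⟩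
    · rintro _ ⟨_, ⟨f, hf, rfl⟩, rfl⟩
      obtain ⟨n, hn⟩ := mem_iUnion.1 (hyF f hf)
      exact mem_iUnion.2 ⟨n, hn⟩
    · rw [disjoint_left]
      intro x hx hxI
      exact disjoint_left.1 (hH3 n) hx ⟨h1 ⟨x, hxI, rfl⟩, x, hxI, rfl⟩

theorem pr_of_thn {κ : Cardinal.{0}} (hb : bNum ≤ κ) (hc : κ ≤ 𝔠) {P : Set (X × X)}
    (hP : #P = κ) (hT : Thn κ P) : Pr κ := by
  have hκ' : ℵ₀ < κ := lt_of_lt_of_le aleph0_lt_bNum hb
  have hκ : ℵ₀ ≤ κ := hκ'.le
  obtain ⟨F, hF, hunb⟩ := exists_unb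
  obtain ⟨D, hD⟩ := Cardinal.le_mk_iff_exists_set.1 (show κ ≤ #X by rw [mk_X]; exact hc)
  let W : Set (ℕ → ℕ) := (fun a : (ℕ → ℕ) × X => tw a.1 a.2) '' (F ×ˢ D)
  have hW : #W ≤ κ := by
    refine le_trans Cardinal.mk_image_le ?_
    rw [Cardinal.mk_congr (Equiv.Set.prod _ _), Cardinal.mk_prod]
    simp only [Cardinal.lift_id, hF, hD]
    exact le_trans (mul_le_mul' hb le_rfl) (Cardinal.mul_eq_self hκ).le
  refine ⟨Spr P, Spr P ∪ (flip '' Infᶜ ∪ flip '' (cde '' W)), spr_sub P, ?_, ?_, ?_, ?_⟩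
  · refine union_subset (spr_sub P) (union_subset ?_ ?_)
    · rintro _ ⟨x, hx, rfl⟩
      exact flip_inf hx
    · rintro _ ⟨_, ⟨f, -, rfl⟩, rfl⟩
      exact flip_cde_inf f
  · exact kdense_of hP Subset.rfl (mk_spr_le hκ hP)
  · refine kdense_of hP subset_union_left (mk_union_le' hκ (mk_spr_le hκ hP)
      (mk_union_le' hκ ?_ ?_))
    · exact le_trans (Cardinal.le_aleph0_iff_set_countable.2 (countable_compl_inf.image _)) hκ
    · exact le_trans Cardinal.mk_image_le (le_trans Cardinal.mk_image_le hW)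
  · rintro ⟨e⟩
    refine not_thn hunb hD (subset_union_left.trans subset_union_right) ?_
      (Thn.of_homeo e.symm (spr_thn hκ' hT))
    intro f hf y hy
    exact Or.inr (Or.inr ⟨_, ⟨_, ⟨(f, y), ⟨hf, hy⟩, rfl⟩, rfl⟩, rfl⟩)

end Pool.Agent.Lib.MP_ddd032_lc
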