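import Pool.Agent.Lib.MP_ddd032_lc.Spread

set_option autoImplicit false

/-!
Unbounded families coded in Cantor space.
-/

namespace Pool.Agent.Lib.MP_ddd032_lc

open Cardinal Set Filter Topology

theorem bounded_seq (h : ℕ → ℕ → ℕ) : ∃ g : ℕ → ℕ, ∀ n, ∀ᶠ k in atTop, h n k ≤ g k := by
  refine ⟨fun k => ∑ n ∈ Finset.range (k + 1), h n k, fun n => ?_⟩
  refine eventually_atTop.2 ⟨n, fun k hk => ?_⟩
  exact Finset.single_le_sum (f := fun n => h n k) (fun _ _ => Nat.zero_le _)
    (Finset.mem_range.2 (by omega))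

theorem exists_unb : ∃ F : Set (ℕ → ℕ), #F = bNum ∧
    ¬ ∃ g : ℕ → ℕ, ∀ f ∈ F, ∀ᶠ n in atTop, f n ≤ g n := by
  have hne : {c : Cardinal.{0} | ∃ F : Set (ℕ → ℕ), #F = c ∧
      ¬ ∃ g : ℕ → ℕ, ∀ f ∈ F, ∀ᶠ n in atTop, f n ≤ g n}.Nonempty := by
    refine ⟨_, Set.univ, rfl, ?_⟩
    rintro ⟨g, hg⟩
    obtain ⟨N, hN⟩ := eventually_atTop.1 (hg (fun n => g n + 1) trivial)
    have h3 : g N + 1 ≤ g N := hN N le_rfl
    omega
  exact csInf_mem hne

theorem aleph0_lt_bNum : ℵ₀ < bNum := by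
  obtain ⟨F, hF, hunb⟩ := exists_unb
  rw [← hF]
  by_contra hle
  push Not at hle
  apply hunb
  have hc : F.Countable := Cardinal.le_aleph0_iff_set_countable.1 hle
  rcases F.eq_empty_or_nonempty with rfl | hne
  · exact ⟨fun _ => 0, fun f hf => absurd hf (Set.notMem_empty f)⟩
  · obtain ⟨h, rfl⟩ := hc.exists_eq_range hne
    obtain ⟨g, hg⟩ := bounded_seq h
    refine ⟨g, ?_⟩
    rintro _ ⟨n, rfl⟩
    exact hg n

theorem aleph1_le_bNum : ℵ₁ ≤ bNum := by
  rw [← Cardinal.succ_aleph0]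
  exact Order.succ_le_of_lt aleph0_lt_bNum

/-- a growing version of a function, with even values -/
def gr (f : ℕ → ℕ) (n : ℕ) : ℕ := 2 * ∑ i ∈ Finset.range (n + 1), (f i + 1)

theorem gr_succ (f : ℕ → ℕ) (n : ℕ) : gr f (n + 1) = gr f n + 2 * (f (n + 1) + 1) := by
  unfold gr
  rw [Finset.sum_range_succ]
  ring

theorem gr_strictMono (f : ℕ → ℕ) : StrictMono (gr f) :=
  strictMono_nat_of_lt_succ fun n => by rw [gr_succ]; omega

theorem le_gr (f : ℕ → ℕ) (n : ℕ) : f n ≤ gr f n := by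
  have : f n + 1 ≤ ∑ i ∈ Finset.range (n + 1), (f i + 1) :=
    Finset.single_le_sum (f := fun i => f i + 1) (fun _ _ => Nat.zero_le _)
      (Finset.mem_range.2 (by omega))
  unfold gr
  omega

/-- the code: `true` exactly on the range of `gr f` -/
noncomputable def cde (f : ℕ → ℕ) : X := by
  classical exact fun n => decide (∃ k, gr f k = n)

theorem cde_true {f : ℕ → ℕ} {n : ℕ} : cde f n = true ↔ ∃ k, gr f k = n := by
  simp [cde]

theorem cde_inf (f : ℕ → ℕ) : cde f ∈ Inf := by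
  intro N
  exact ⟨gr f N, (gr_strictMono f).le_apply, cde_true.2 ⟨N, rfl⟩⟩

theorem cde_odd (f : ℕ → ℕ) (n : ℕ) : cde f (2 * n + 1) = false := by
  rw [← Bool.not_eq_true, cde_true]
  rintro ⟨k, hk⟩
  unfold gr at hk
  omega

/-- compactness: in a closed set of points with infinitely many `true`, the next `true` is
bounded -/
theorem exists_bound {H : Set X} (hH : IsClosed H) (hd : Disjoint H Infᶜ) (N : ℕ) :
    ∃ M, ∀ x ∈ H, ∃ j, N ≤ j ∧ j < M ∧ x j = true := by
  have hc : IsCompact H := hH.isCompact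
  have h1 : ∀ M : ℕ, IsOpen {x : X | ∃ j, N ≤ j ∧ j < M ∧ x j = true} := by
    intro M
    have : {x : X | ∃ j, N ≤ j ∧ j < M ∧ x j = true} =
        ⋃ j, ⋃ (_ : N ≤ j ∧ j < M), {x : X | x j = true} := by
      ext x; simp [and_assoc]
    rw [this]
    refine isOpen_iUnion fun j => isOpen_iUnion fun _ => ?_
    exact (isOpen_discrete ({true} : Set Bool)).preimage (f := fun x : X => x j)
      (continuous_apply j)
  obtain ⟨M, hM⟩ := hc.elim_directed_cover (fun M : ℕ => {x : X | ∃ j, N ≤ j ∧ j < M ∧ x j = true})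
    h1 (by
      intro x hx
      have hxI : x ∈ Inf := by
        by_contra hcon
        exact disjoint_left.1 hd hx hcon
      obtain ⟨n, hn, hxn⟩ := hxI N
      exact mem_iUnion.2 ⟨n + 1, n, hn, Nat.lt_succ_self n, hxn⟩)
    (by
      intro a b
      refine ⟨max a b, ?_, ?_⟩
      · rintro x ⟨j, h1, h2, h3⟩
        exact ⟨j, h1, lt_of_lt_of_le h2 (le_max_left _ _), h3⟩
      · rintro x ⟨j, h1, h2, h3⟩
        exact ⟨j, h1, lt_of_lt_of_le h2 (le_max_right _ _), h3⟩)
  exact ⟨M, fun x hx => hM hx⟩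

theorem exists_bound_seq {H : Set X} (hH : IsClosed H) (hd : Disjoint H Infᶜ) :
    ∃ G : ℕ → ℕ, ∀ f, cde f ∈ H → ∀ n, gr f n ≤ G n := by
  choose M hM using exists_bound hH hd
  let M' : ℕ → ℕ := fun n => (Finset.range (n + 1)).sup M
  have hM' : Monotone M' := fun a b hab => Finset.sup_mono (Finset.range_mono (by omega))
  have hMM : ∀ n, M n ≤ M' n := fun n => Finset.le_sup (f := M) (Finset.mem_range.2 (by omega))
  let G : ℕ → ℕ := fun n => Nat.rec (M' 0) (fun _ a => M' (a + 1)) n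
  refine ⟨G, fun f hf n => ?_⟩
  induction n with
  | zero =>
    obtain ⟨j, -, h2, h3⟩ := hM 0 _ hf
    obtain ⟨k, hk⟩ := cde_true.1 h3
    have : gr f 0 ≤ gr f k := (gr_strictMono f).monotone (Nat.zero_le k)
    have h4 := hMM 0
    show gr f 0 ≤ M' 0
    omega
  | succ n ih =>
    obtain ⟨j, h1, h2, h3⟩ := hM (gr f n + 1) _ hf
    obtain ⟨k, hk⟩ := cde_true.1 h3
    have hnk : n < k := by
      by_contra hle
      push Not at hle
      have := (gr_strictMono f).monotone hle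
      omega
    have h4 : gr f (n + 1) ≤ gr f k := (gr_strictMono f).monotone hnk
    have h5 := hMM (gr f n + 1)
    have h6 : M' (gr f n + 1) ≤ M' (G n + 1) := hM' (by omega)
    show gr f (n + 1) ≤ M' (G n + 1)
    omega

/-- The set of codes of an unbounded family cannot be separated from the points with finitely
many `true`. -/
theorem not_sep {F : Set (ℕ → ℕ)}
    (hF : ¬ ∃ g : ℕ → ℕ, ∀ f ∈ F, ∀ᶠ n in atTop, f n ≤ g n) : ¬ Sep (cde '' F) Infᶜ := by
  rintro ⟨H, hH, hcov, hd⟩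
  apply hF
  choose G hG using fun n => exists_bound_seq (hH n) (hd n)
  obtain ⟨g, hg⟩ := bounded_seq G
  refine ⟨g, fun f hf => ?_⟩
  obtain ⟨n, hn⟩ := mem_iUnion.1 (hcov ⟨f, hf, rfl⟩)
  filter_upwards [hg n] with k hk
  exact le_trans (le_gr f k) (le_trans (hG n f hn k) hk)

/-- flipping -/
def flip (x : X) : X := fun n => !(x n)

theorem continuous_flip : Continuous flip :=
  continuous_pi fun n => continuous_of_discreteTopology.comp (continuous_apply n)

theorem flip_flip (x : X) : flip (flip x) = x := by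
  funext n; simp [flip]

theorem countable_compl_inf : (Infᶜ : Set X).Countable := by
  have : (Infᶜ : Set X) ⊆ range (fun s : Finset ℕ => fun n => decide (n ∈ s)) := by
    intro x hx
    have hx' : ∃ N, ∀ n, N ≤ n → x n = false := by
      by_contra hcon
      push Not at hcon
      apply hx
      intro N
      obtain ⟨n, hn, hxn⟩ := hcon N
      exact ⟨n, hn, by simpa using hxn⟩
    obtain ⟨N, hN⟩ := hx'
    refine ⟨(Finset.range N).filter fun n => x n = true, ?_⟩
    funext n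
    by_cases h : n < N
    · simp [h]
    · have := hN n (by omega)
      simp [h, this]
  exact (countable_range _).mono this

theorem flip_inf {x : X} (hx : x ∈ (Infᶜ : Set X)) : flip x ∈ Inf := by
  have hx' : ∃ N, ∀ n, N ≤ n → x n = false := by
    by_contra hcon
    push Not at hcon
    apply hx
    intro N
    obtain ⟨n, hn, hxn⟩ := hcon N
    exact ⟨n, hn, by simpa using hxn⟩
  obtain ⟨N, hN⟩ := hx'
  intro M
  refine ⟨max M N, le_max_left _ _, ?_⟩
  simp [flip, hN (max M N) (le_max_right _ _)]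

theorem flip_cde_inf (f : ℕ → ℕ) : flip (cde f) ∈ Inf := by
  intro N
  exact ⟨2 * N + 1, by omega, by simp [flip, cde_odd]⟩

/-- A set containing the flipped codes and the flips of the points with finitely many `true`
is not `Lam`. -/
theorem not_lam {F : Set (ℕ → ℕ)}
    (hF : ¬ ∃ g : ℕ → ℕ, ∀ f ∈ F, ∀ᶠ n in atTop, f n ≤ g n) {Y : Set X}
    (h1 : flip '' Infᶜ ⊆ Y) (h2 : flip '' (cde '' F) ⊆ Y) : ¬ Lam Y := by
  intro hY
  apply not_sep hF
  have h3 := (hY (flip '' Infᶜ) (countable_compl_inf.image _)).preimage continuous_flip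
  refine h3.mono ?_ ?_
  · rintro _ ⟨f, hf, rfl⟩
    refine ⟨h2 ⟨_, ⟨f, hf, rfl⟩, rfl⟩, ?_⟩
    rintro ⟨x, hx, he⟩
    have : x = cde f := by rw [← flip_flip x, he, flip_flip]
    exact hx (this ▸ cde_inf f)
  · intro x hx
    exact ⟨h1 ⟨x, hx, rfl⟩, x, hx, rfl⟩

end Pool.Agent.Lib.MP_ddd032_lc
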